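import Pool.Agent.W823.QT.Stm
set_option autoImplicit false

/-! QT-NUM: a numerical series. -/

namespace Pool.Agent.W131.QTNUM

open Pool.Agent.W823.QT
open scoped ENNReal

/-- the square roots -/
noncomputable def w (h : ℝ) (n : ℕ) : ℝ := Real.sqrt (1 + n * h)

theorem w_pos (h : ℝ) (hh : 0 < h) (n : ℕ) : 0 < w h n := Real.sqrt_pos.2 (by positivity)

theorem w_sq (h : ℝ) (hh : 0 < h) (n : ℕ) : w h n ^ 2 = 1 + n * h :=
  Real.sq_sqrt (by positivity)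

theorem rp (h : ℝ) (hh : 0 < h) (n : ℕ) :
    (1 + n * h) ^ (-(5 / 2) : ℝ) = (w h n ^ 5)⁻¹ := by
  have hx : (0 : ℝ) ≤ 1 + n * h := by positivity
  rw [Real.rpow_neg hx]
  congr 1
  unfold w
  rw [Real.sqrt_eq_rpow, ← Real.rpow_natCast, ← Real.rpow_mul hx]
  norm_num

theorem step (h : ℝ) (hh : 0 < h) (h1 : h ≤ 1) (n : ℕ) :
    ((n : ℝ) + 1 + 1) * (h ^ 2 * (w h (n + 1) ^ 5)⁻¹) ≤ 2 * ((w h n)⁻¹ - (w h (n + 1))⁻¹) := by
  have hu := w_pos h hh n
  have hv := w_pos h hh (n + 1)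
  have su := w_sq h hh n
  have sv := w_sq h hh (n + 1)
  push_cast at sv
  set u := w h n
  set v := w h (n + 1)
  have hd : v ^ 2 - u ^ 2 = h := by rw [su, sv]; ring
  have huv : u ≤ v := by
    by_contra hc
    push Not at hc
    nlinarith
  have a1 : ((n : ℝ) + 1 + 1) * h ≤ v ^ 2 := by rw [sv]; nlinarith
  have a2 : ((n : ℝ) + 1 + 1) * (h ^ 2 * (v ^ 5)⁻¹) ≤ h * (v ^ 3)⁻¹ := by
    have e : h * (v ^ 3)⁻¹ = v ^ 2 * (h * (v ^ 5)⁻¹) := by
      field_simp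
    rw [e]
    have := mul_le_mul_of_nonneg_right a1 (show 0 ≤ h * (v ^ 5)⁻¹ by positivity)
    calc ((n : ℝ) + 1 + 1) * (h ^ 2 * (v ^ 5)⁻¹) = ((n : ℝ) + 1 + 1) * h * (h * (v ^ 5)⁻¹) := by
          ring
      _ ≤ _ := this
  refine a2.trans ?_
  have e2 : 2 * (u⁻¹ - v⁻¹) = 2 * (v - u) * v ^ 2 / (u * v ^ 3) := by
    field_simp
  have e3 : h * (v ^ 3)⁻¹ = (v - u) * ((v + u) * u) / (u * v ^ 3) := by
    rw [← hd]
    field_simp
    ring
  rw [e2, e3]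
  refine div_le_div_of_nonneg_right ?_ (by positivity)
  have : (v + u) * u ≤ 2 * v ^ 2 := by nlinarith
  nlinarith [mul_le_mul_of_nonneg_left this (sub_nonneg.2 huv)]

theorem main : NUM_T := by
  intro h hh h1
  rw [tsum_eq_zero_add' ENNReal.summable]
  have h0 : ((0 : ℕ) : ℝ≥0∞) = 0 := by norm_num
  have f0 : (((0 : ℕ) : ℝ≥0∞) + 1) *
      ENNReal.ofReal (h ^ 2 * (1 + ((0 : ℕ) : ℝ) * h) ^ (-(5 / 2) : ℝ)) ≤ 1 := by
    have e : h ^ 2 * (1 + ((0 : ℕ) : ℝ) * h) ^ (-(5 / 2) : ℝ) = h ^ 2 := by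
      norm_num
    rw [e, h0, zero_add, one_mul, ← ENNReal.ofReal_one]
    exact ENNReal.ofReal_le_ofReal (by nlinarith)
  have fs : ∑' n : ℕ, (((n + 1 : ℕ) : ℝ≥0∞) + 1) *
      ENNReal.ofReal (h ^ 2 * (1 + ((n + 1 : ℕ) : ℝ) * h) ^ (-(5 / 2) : ℝ)) ≤ 2 := by
    have hterm : ∀ n : ℕ, (((n + 1 : ℕ) : ℝ≥0∞) + 1) *
        ENNReal.ofReal (h ^ 2 * (1 + ((n + 1 : ℕ) : ℝ) * h) ^ (-(5 / 2) : ℝ)) ≤
        ENNReal.ofReal (2 * ((w h n)⁻¹ - (w h (n + 1))⁻¹)) := by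
      intro n
      have e : (((n + 1 : ℕ) : ℝ≥0∞) + 1) = ENNReal.ofReal ((n : ℝ) + 1 + 1) := by
        have : ((n : ℝ) + 1 + 1) = ((n + 1 + 1 : ℕ) : ℝ) := by push_cast; ring
        rw [this, ENNReal.ofReal_natCast]
        push_cast
        rfl
      rw [e, ← ENNReal.ofReal_mul (by positivity), rp h hh (n + 1)]
      exact ENNReal.ofReal_le_ofReal (step h hh h1 n)
    refine ENNReal.tsum_le_of_sum_range_le fun N => ?_
    have hind : ∀ N : ℕ, ∑ n ∈ Finset.range N, (((n + 1 : ℕ) : ℝ≥0∞) + 1) *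
        ENNReal.ofReal (h ^ 2 * (1 + ((n + 1 : ℕ) : ℝ) * h) ^ (-(5 / 2) : ℝ)) ≤
        ENNReal.ofReal (2 * (1 - (w h N)⁻¹)) := by
      intro N
      induction N with
      | zero => simp
      | succ N ih =>
        rw [Finset.sum_range_succ]
        refine (add_le_add ih (hterm N)).trans ?_
        have hN : 1 ≤ w h N := by
          unfold w
          rw [Real.one_le_sqrt]
          have : (0 : ℝ) ≤ N * h := by positivity
          linarith
        have hinv : (w h N)⁻¹ ≤ 1 := inv_le_one_of_one_le₀ hN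
        rw [← ENNReal.ofReal_add]
        · apply le_of_eq
          congr 1
          ring
        · linarith
        · refine le_trans ?_ (step h hh h1 N)
          have := w_pos h hh (N + 1)
          positivity
    refine (hind N).trans ?_
    have : (2 : ℝ≥0∞) = ENNReal.ofReal 2 := by norm_num
    rw [this]
    refine ENNReal.ofReal_le_ofReal ?_
    have := inv_pos.2 (w_pos h hh N)
    linarith
  calc _ ≤ (1 : ℝ≥0∞) + 2 := add_le_add f0 fs
    _ ≤ 4 := by norm_num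

end Pool.Agent.W131.QTNUM
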