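import Pool.Agent.W997.LN.Stm

/-!
# Depth first evaluation of the layered evaluation problem
-/

set_option autoImplicit false

namespace Pool.Agent.W131.LNDFS

open Pool.Agent.W997.TS (bit DBP)
open Pool.Agent.W997.LN

section general

variable {V : Type} {k : ℕ}

/-- Exactly `t` steps lead from `a` to `b`, and only variables in `W` are read. -/
def Reach {S O : Type} (query : S → V) (next : S → Fin k → S ⊕ O) (x : V → Fin k)
    (W : V → Prop) : ℕ → S ⊕ O → S ⊕ O → Prop
  | 0, a, b => a = b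
  | t + 1, a, b => ∃ s, a = Sum.inl s ∧ W (query s) ∧
      Reach query next x W t (next s (x (query s))) b

theorem Reach.trans {S O : Type} {query : S → V} {next : S → Fin k → S ⊕ O} {x : V → Fin k}
    {W : V → Prop} {t' : ℕ} {b c : S ⊕ O} (h' : Reach query next x W t' b c) :
    ∀ (t : ℕ) (a : S ⊕ O), Reach query next x W t a b → Reach query next x W (t + t') a c
  | 0, a, h => by
    have h1 : a = b := h
    rw [h1, Nat.zero_add]
    exact h'
  | t + 1, a, ⟨s, hs, hW, h⟩ => by
    rw [Nat.succ_add]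
    exact ⟨s, hs, hW, Reach.trans h' t _ h⟩

theorem Reach.emb {S O S' O' : Type} (query : S → V) (next : S → Fin k → S ⊕ O)
    (query' : S' → V) (next' : S' → Fin k → S' ⊕ O') (E : S ⊕ O → S' ⊕ O') (f : S → S')
    (hE : ∀ s, E (Sum.inl s) = Sum.inl (f s)) (hq : ∀ s, query' (f s) = query s)
    (hn : ∀ s y, next' (f s) y = E (next s y)) (x : V → Fin k) (W : V → Prop) (b : S ⊕ O) :
    ∀ (t : ℕ) (a : S ⊕ O), Reach query next x W t a b → Reach query' next' x W t (E a) (E b)
  | 0, a, h => by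
    have h1 : a = b := h
    rw [h1]
    rfl
  | t + 1, a, ⟨s, hs, hW, h⟩ => by
    refine ⟨f s, by rw [hs, hE], by rw [hq]; exact hW, ?_⟩
    rw [hq, hn]
    exact Reach.emb query next query' next' E f hE hq hn x W b t _ h

theorem Reach.path (P : DBP V k) (x : V → Fin k) (W : V → Prop) (b : Bool) : ∀ (t : ℕ)
    (s : P.State), Reach P.query P.next x W (t + 1) (Sum.inl s) (Sum.inr b) →
    ∃ l : List P.State, l.length = t ∧ P.IsPath x s l b ∧ ∀ q ∈ s :: l, W (P.query q)
  | 0, s, ⟨s', hs, hW, h⟩ => by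
    have e : s = s' := Sum.inl.inj hs
    subst e
    refine ⟨[], rfl, h, ?_⟩
    intro q hq
    rw [List.mem_singleton] at hq
    rw [hq]
    exact hW
  | t + 1, s, ⟨s', hs, hW, h⟩ => by
    have e : s = s' := Sum.inl.inj hs
    subst e
    obtain ⟨s2, hs2, h2⟩ := h
    have h3 : Reach P.query P.next x W (t + 1) (Sum.inl s2) (Sum.inr b) := ⟨s2, rfl, h2⟩
    obtain ⟨l, hl, hp, hW'⟩ := Reach.path P x W b t s2 h3
    refine ⟨s2 :: l, by rw [List.length_cons, hl], ⟨hs2, hp⟩, ?_⟩
    intro q hq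
    rcases List.mem_cons.1 hq with rfl | hq
    · exact hW
    · exact hW' q hq

end general

/-- The address which is needed at the node. -/
def need {h p l : ℕ} (x : Input h p l) : Node h p → Fin (2 ^ l)
  | (⟨0, _⟩, _, _) => letter 0
  | (⟨j + 1, hj⟩, _, i) =>
      letter (∑ s : Fin (2 ^ p), vec (value x j (by omega) i s))

/-- The variable is the one which is needed for the value of its node. -/
def Right {h p l : ℕ} (x : Input h p l) (w : Var h p l) : Prop := w.2 = need x w.1

/-- The number of steps. -/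
def T (p : ℕ) : ℕ → ℕ
  | 0 => 1
  | j + 1 => 2 ^ p * T p j + 1

theorem T_le (p : ℕ) : ∀ j, T p j ≤ (j + 1) * (2 ^ p) ^ j
  | 0 => by simp [T]
  | j + 1 => by
    have h1 := T_le p j
    have h2 : 1 ≤ (2 ^ p) ^ (j + 1) := Nat.one_le_pow _ _ (Nat.pos_of_ne_zero (by positivity))
    calc T p (j + 1) = 2 ^ p * T p j + 1 := rfl
      _ ≤ 2 ^ p * ((j + 1) * (2 ^ p) ^ j) + (2 ^ p) ^ (j + 1) :=
        Nat.add_le_add (Nat.mul_le_mul_left _ h1) h2
      _ = (j + 1 + 1) * (2 ^ p) ^ (j + 1) := by ring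

theorem T_pos (p : ℕ) (j : ℕ) : 1 ≤ T p j := by
  cases j with
  | zero => exact le_rfl
  | succ j => exact Nat.le_add_left _ _

/-- The partial sums. -/
def acc {h p l : ℕ} (x : Input h p l) (j : ℕ) (hj : j ≤ h) (i : Fin (2 ^ p)) (s : ℕ) :
    Fin l → ZMod 2 :=
  ∑ u ∈ Finset.range s, if hu : u < 2 ^ p then vec (value x j hj i ⟨u, hu⟩) else 0

theorem acc_zero {h p l : ℕ} (x : Input h p l) (j : ℕ) (hj : j ≤ h) (i : Fin (2 ^ p)) :
    acc x j hj i 0 = 0 := by
  unfold acc
  rw [Finset.range_zero, Finset.sum_empty]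

theorem acc_succ {h p l : ℕ} (x : Input h p l) (j : ℕ) (hj : j ≤ h) (i : Fin (2 ^ p)) (s : ℕ)
    (hs : s < 2 ^ p) : acc x j hj i (s + 1) = acc x j hj i s + vec (value x j hj i ⟨s, hs⟩) := by
  unfold acc
  rw [Finset.sum_range_succ, dif_pos hs]

theorem acc_full {h p l : ℕ} (x : Input h p l) (j : ℕ) (hj : j ≤ h) (i : Fin (2 ^ p)) :
    acc x j hj i (2 ^ p) = ∑ s : Fin (2 ^ p), vec (value x j hj i s) := by
  unfold acc
  rw [Finset.sum_range]
  refine Finset.sum_congr rfl fun s _ => ?_
  rw [dif_pos s.2]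

section step

variable {h p l : ℕ} {S : Type} (j : ℕ) (hj : j + 1 ≤ h) (query : S → Var h p l)
  (next : S → Fin (2 ^ l) → S ⊕ Fin (2 ^ l)) (start : Fin (2 ^ p) → Fin (2 ^ p) → S)

/-- the states of the next level -/
abbrev NS (p l : ℕ) (S : Type) : Type :=
  (Fin (2 ^ p) × Fin (2 ^ p) × Fin (2 ^ p) × (Fin l → ZMod 2) × S) ⊕
    (Fin (2 ^ p) × Fin (2 ^ p) × (Fin l → ZMod 2))

/-- the exit of the child `s` -/
def ex (g i s : Fin (2 ^ p)) (a : Fin l → ZMod 2) (c : Fin (2 ^ l)) : NS p l S :=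
  if hs : s.val + 1 < 2 ^ p then
    Sum.inl (g, i, ⟨s.val + 1, hs⟩, a + vec c, start i ⟨s.val + 1, hs⟩)
  else Sum.inr (g, i, a + vec c)

/-- the query of the next level -/
def query' : NS p l S → Var h p l
  | Sum.inl (_, _, _, _, q) => query q
  | Sum.inr (g, i, a) => ((⟨j + 1, by omega⟩, g, i), letter a)

/-- the embedding -/
def E (g i s : Fin (2 ^ p)) (a : Fin l → ZMod 2) : S ⊕ Fin (2 ^ l) → NS p l S ⊕ Fin (2 ^ l)
  | Sum.inl q => Sum.inl (Sum.inl (g, i, s, a, q))
  | Sum.inr c => Sum.inl (ex start g i s a c)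

/-- the next state -/
def next' : NS p l S → Fin (2 ^ l) → NS p l S ⊕ Fin (2 ^ l)
  | Sum.inl (g, i, s, a, q), y => E start g i s a (next q y)
  | Sum.inr _, y => Sum.inr y

theorem children (x : Input h p l) (g i : Fin (2 ^ p)) (t : ℕ)
    (hlead : ∀ s, Reach query next x (Right x) t (Sum.inl (start i s))
      (Sum.inr (value x j (by omega) i s))) : ∀ (m s : ℕ) (hs : s < 2 ^ p), s + m + 1 = 2 ^ p →
    Reach (query' j hj query) (next' next start) x (Right x) ((m + 1) * t)
      (Sum.inl (Sum.inl (g, i, ⟨s, hs⟩, acc x j (by omega) i s, start i ⟨s, hs⟩)))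
      (Sum.inl (Sum.inr (g, i, acc x j (by omega) i (2 ^ p)))) := by
  have key : ∀ (s : ℕ) (hs : s < 2 ^ p),
      Reach (query' j hj query) (next' next start) x (Right x) t
        (Sum.inl (Sum.inl (g, i, ⟨s, hs⟩, acc x j (by omega) i s, start i ⟨s, hs⟩)))
        (Sum.inl (ex start g i ⟨s, hs⟩ (acc x j (by omega) i s)
          (value x j (by omega) i ⟨s, hs⟩))) := by
    intro s hs
    exact Reach.emb query next (query' j hj query) (next' next start)
      (E start g i ⟨s, hs⟩ (acc x j (by omega) i s))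
      (fun q => Sum.inl (g, i, ⟨s, hs⟩, acc x j (by omega) i s, q))
      (fun _ => rfl) (fun _ => rfl) (fun _ _ => rfl) x (Right x) _ t _ (hlead ⟨s, hs⟩)
  intro m
  induction m with
  | zero =>
    intro s hs hsum
    have h1 := key s hs
    have h2 : ex start g i ⟨s, hs⟩ (acc x j (by omega) i s) (value x j (by omega) i ⟨s, hs⟩) =
        Sum.inr (g, i, acc x j (by omega) i (2 ^ p)) := by
      unfold ex
      rw [dif_neg (by simp only; omega)]
      have h3 : acc x j (by omega) i (2 ^ p) = acc x j (by omega) i (s + 1) := by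
        congr 1
        omega
      rw [h3, acc_succ x j (by omega) i s hs]
    rw [h2] at h1
    rw [Nat.zero_add, Nat.one_mul]
    exact h1
  | succ m ih =>
    intro s hs hsum
    have h1 := key s hs
    have hs' : s + 1 < 2 ^ p := by omega
    have h2 : ex start g i ⟨s, hs⟩ (acc x j (by omega) i s) (value x j (by omega) i ⟨s, hs⟩) =
        Sum.inl (g, i, ⟨s + 1, hs'⟩, acc x j (by omega) i (s + 1), start i ⟨s + 1, hs'⟩) := by
      unfold ex
      rw [dif_pos hs', acc_succ x j (by omega) i s hs]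
    rw [h2] at h1
    have h3 := Reach.trans (ih (s + 1) hs' (by omega)) t _ h1
    have h4 : (m + 1 + 1) * t = t + (m + 1) * t := by ring
    rw [h4]
    exact h3

theorem step (x : Input h p l) (g i : Fin (2 ^ p)) (t : ℕ)
    (hlead : ∀ s, Reach query next x (Right x) t (Sum.inl (start i s))
      (Sum.inr (value x j (by omega) i s))) :
    Reach (query' j hj query) (next' next start) x (Right x) (2 ^ p * t + 1)
      (Sum.inl (Sum.inl (g, i, 0, 0, start i 0))) (Sum.inr (value x (j + 1) hj g i)) := by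
  have hpos : 0 < 2 ^ p := Nat.pos_of_ne_zero (by positivity)
  have h1 := children j hj query next start x g i t hlead (2 ^ p - 1) 0 hpos (by omega)
  have h2 : 2 ^ p - 1 + 1 = 2 ^ p := by omega
  rw [h2, acc_zero] at h1
  have h3 : Reach (query' j hj query) (next' next start) x (Right x) 1
      (Sum.inl (Sum.inr (g, i, acc x j (by omega) i (2 ^ p))))
      (Sum.inr (value x (j + 1) hj g i)) := by
    refine ⟨Sum.inr (g, i, acc x j (by omega) i (2 ^ p)), rfl, ?_, ?_⟩
    · change letter (acc x j (by omega) i (2 ^ p)) = letter _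
      rw [acc_full]
    · change Sum.inr (x ((⟨j + 1, by omega⟩, g, i), letter (acc x j (by omega) i (2 ^ p)))) =
        Sum.inr (value x (j + 1) hj g i)
      rw [acc_full]
      rfl
  exact Reach.trans h3 _ _ h1

end step

theorem piece (h p l : ℕ) : ∀ (j : ℕ) (hj : j ≤ h),
    ∃ (S : Type) (_ : Fintype S) (query : S → Var h p l)
      (next : S → Fin (2 ^ l) → S ⊕ Fin (2 ^ l)) (start : Fin (2 ^ p) → Fin (2 ^ p) → S),
      Fintype.card S ≤ (2 * 2 ^ (3 * p + l)) ^ (j + 1) ∧
      ∀ (x : Input h p l) (g i : Fin (2 ^ p)),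
        Reach query next x (Right x) (T p j) (Sum.inl (start g i)) (Sum.inr (value x j hj g i))
  | 0, hj => by
    refine ⟨Fin (2 ^ p) × Fin (2 ^ p), inferInstance,
      fun q => ((⟨0, by omega⟩, q.1, q.2), letter 0), fun _ y => Sum.inr y, fun g i => (g, i),
      ?_, ?_⟩
    · rw [Fintype.card_prod, Fintype.card_fin, Nat.zero_add, pow_one]
      calc 2 ^ p * 2 ^ p = 2 ^ (p + p) := by rw [pow_add]
        _ ≤ 2 ^ (3 * p + l) := Nat.pow_le_pow_right (by norm_num) (by omega)
        _ ≤ 2 * 2 ^ (3 * p + l) := by omega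
    · intro x g i
      exact ⟨(g, i), rfl, rfl, rfl⟩
  | j + 1, hj => by
    obtain ⟨S, hS, query, next, start, hcard, hlead⟩ := piece h p l j (by omega)
    refine ⟨NS p l S, inferInstance, query' j hj query, next' next start,
      fun g i => Sum.inl (g, i, 0, 0, start i 0), ?_, ?_⟩
    · have e1 : Fintype.card (NS p l S) =
          2 ^ (3 * p + l) * Fintype.card S + 2 ^ (2 * p + l) := by
        simp only [Fintype.card_sum, Fintype.card_prod, Fintype.card_fin, Fintype.card_fun,
          ZMod.card]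
        have e2 : 2 ^ (3 * p + l) = 2 ^ p * 2 ^ p * 2 ^ p * 2 ^ l := by
          rw [pow_add, show 3 * p = p + p + p by ring, pow_add, pow_add]
        have e3 : 2 ^ (2 * p + l) = 2 ^ p * 2 ^ p * 2 ^ l := by
          rw [pow_add, show 2 * p = p + p by ring, pow_add]
        rw [e2, e3]
        ring
      have h1 : 2 ^ (2 * p + l) ≤ 2 ^ (3 * p + l) :=
        Nat.pow_le_pow_right (by norm_num) (by omega)
      have h2 : 1 ≤ (2 * 2 ^ (3 * p + l)) ^ (j + 1) :=
        Nat.one_le_pow _ _ (Nat.pos_of_ne_zero (by positivity))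
      rw [e1]
      calc 2 ^ (3 * p + l) * Fintype.card S + 2 ^ (2 * p + l)
          ≤ 2 ^ (3 * p + l) * (2 * 2 ^ (3 * p + l)) ^ (j + 1) +
            2 ^ (3 * p + l) * (2 * 2 ^ (3 * p + l)) ^ (j + 1) := by
            refine Nat.add_le_add (Nat.mul_le_mul_left _ hcard) ?_
            calc 2 ^ (2 * p + l) ≤ 2 ^ (3 * p + l) * 1 := by rw [mul_one]; exact h1
              _ ≤ _ := Nat.mul_le_mul_left _ h2
        _ = (2 * 2 ^ (3 * p + l)) ^ (j + 1 + 1) := by ring
    · intro x g i
      exact step j hj query next start x g i (T p j) (fun s => hlead x i s)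

theorem main : Pool.Agent.W997.LN.S_DFS := by
  intro h p l
  classical
  obtain ⟨S, hS, query, next, start, hcard, hlead⟩ := piece h p l h le_rfl
  let P : DBP (Var h p l) (2 ^ l) :=
    { State := S, start := start 0 0, query := query,
      next := fun s y => (next s y).map id bit }
  refine ⟨P, hcard, ?_⟩
  intro x
  have h1 := hlead x 0 0
  have h2 : Reach P.query P.next x (Right x) (T p h) (Sum.inl (start 0 0))
      (Sum.inr (rootBit h p l x)) := by
    have h3 := Reach.emb query next P.query P.next (Sum.map id bit) id (fun _ => rfl)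
      (fun _ => rfl) (fun _ _ => rfl) x (Right x) _ (T p h) _ h1
    exact h3
  obtain ⟨t, ht⟩ : ∃ t, T p h = t + 1 := ⟨T p h - 1, by have := T_pos p h; omega⟩
  rw [ht] at h2
  obtain ⟨L, hL, hp, hW⟩ := Reach.path P x (Right x) _ t _ h2
  refine ⟨T p h, _, T_le p h, ?_, L, hp, ?_, rfl⟩
  · have hcN : Fintype.card (Node h p) = (h + 1) * (2 ^ p) ^ 2 := by
      simp only [Fintype.card_prod, Fintype.card_fin]
      ring
    rw [← hcN, ← Finset.card_univ]
    refine Finset.card_le_card_of_injOn Prod.fst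
      (fun _ _ => Finset.mem_coe.2 (Finset.mem_univ _)) ?_
    intro w hw' w' hw'' heq
    have hR : ∀ w ∈ ((P.start :: L).map P.query).toFinset, Right x w := by
      intro w hw
      rw [List.mem_toFinset, List.mem_map] at hw
      obtain ⟨q, hq, rfl⟩ := hw
      exact hW q hq
    have h2 := hR w (Finset.mem_coe.1 hw')
    have h3 := hR w' (Finset.mem_coe.1 hw'')
    unfold Right at h2 h3
    refine Prod.ext heq ?_
    rw [h2, h3, heq]
  · rw [List.length_cons, hL, ht]

end Pool.Agent.W131.LNDFS
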