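import Pool.Agent.W894.HT.Defs

/-!
# Project HT, part MOD4: twin spacers give squares, and a square is one or zero modulo four
-/

namespace Pool.Agent.W131.HTMod4

open Pool.Agent.W894.HT

/-- positions of graph vertices -/
def Pt (u : ℕ) : Prop := u = 1 ∨ u % 3 = 0

/-- equal values at the twin positions -/
def Good (κ : ℕ → ℕ) : Prop := ∀ j, κ (3 * j + 4) = κ (3 * j + 5)

theorem low_eq {u : ℕ} (hu : Pt u) (j : ℕ) : low u (3 * j + 4) = low u (3 * j + 5) := by
  unfold low
  unfold Pt at hu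
  have h : (u < 3 * j + 4) ↔ (u < 3 * j + 5) := by omega
  simp only [h]

theorem itv_eq {u v : ℕ} (hu : Pt u) (hv : Pt v) (j : ℕ) :
    itv u v (3 * j + 4) = itv u v (3 * j + 5) := by
  unfold itv
  unfold Pt at hu hv
  have h : (u < 3 * j + 4 ∧ 3 * j + 4 < v) ↔ (u < 3 * j + 5 ∧ 3 * j + 5 < v) := by omega
  simp only [h]

theorem four : (4 : ZMod 4) = 0 := rfl

theorem sq4 (n : ℕ) : (n : ZMod 4) * (n : ZMod 4) = if Odd n then 1 else 0 := by
  rcases Nat.even_or_odd' n with ⟨k, hk | hk⟩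
  · rw [if_neg (by rw [Nat.not_odd_iff_even]; exact ⟨k, by omega⟩), hk]
    push_cast
    have h : (2 * (k : ZMod 4)) * (2 * (k : ZMod 4)) = 4 * (k * k) := by ring
    rw [h, four, zero_mul]
  · rw [if_pos ⟨k, hk⟩, hk]
    push_cast
    have h : (2 * (k : ZMod 4) + 1) * (2 * (k : ZMod 4) + 1) = 4 * (k * k + k) + 1 := by ring
    rw [h, four, zero_mul, zero_add]

theorem fin_eq {u : ℕ} (hu : Pt u) {κ : ℕ → ℕ} (hκ : Good κ) (m : ℕ) :
    finH (A := ZMod 4) (Zt m) u κ = finM m u κ := by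
  induction m with
  | zero =>
    change (List.map (fun z => ((κ z + low u z : ℕ) : ZMod 4)) [2]).prod = _
    rw [List.map_cons, List.map_nil, List.prod_cons, List.prod_nil, mul_one]
    rfl
  | succ m ih =>
    have h1 : finH (A := ZMod 4) (Zt (m + 1)) u κ =
        ((κ (3 * m + 4) + low u (3 * m + 4) : ℕ) : ZMod 4) *
          (((κ (3 * m + 5) + low u (3 * m + 5) : ℕ) : ZMod 4) * finH (Zt m) u κ) := by
      change (List.map (fun z => ((κ z + low u z : ℕ) : ZMod 4))
        ((3 * m + 4) :: (3 * m + 5) :: Zt m)).prod = _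
      rw [List.map_cons, List.map_cons, List.prod_cons, List.prod_cons]
      rfl
    rw [h1, ← hκ m, ← low_eq hu m, ← mul_assoc, sq4, ih]
    change _ = if Odd (κ (3 * m + 4) + low u (3 * m + 4)) then finM m u κ else 0
    split_ifs
    · rw [one_mul]
    · rw [zero_mul]

theorem aux (m : ℕ) (φ : ℕ → ℕ → ZMod 4) : ∀ (l : List ℕ) (x : ℕ) (κ : ℕ → ℕ),
    Good κ → (∀ u ∈ x :: l, Pt u) →
    Rr φ (finH (Zt m)) x l κ = Rr φ (finM m) x l κ := by
  intro l
  induction l with
  | nil =>
    intro x κ hκ hx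
    exact fin_eq (hx x (List.mem_cons_self ..)) hκ m
  | cons v l ih =>
    intro x κ hκ hx
    have hx0 : Pt x := hx x (List.mem_cons_self ..)
    have hv0 : Pt v := hx v (List.mem_cons_of_mem _ (List.mem_cons_self ..))
    have hl : ∀ u ∈ v :: l, Pt u := fun u hu => hx u (List.mem_cons_of_mem _ hu)
    have hg : Good (fun z => κ z + itv x v z) := by
      intro j
      change κ (3 * j + 4) + itv x v (3 * j + 4) = κ (3 * j + 5) + itv x v (3 * j + 5)
      rw [hκ j, itv_eq hx0 hv0 j]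
    change (if x < v then Rr φ (finH (Zt m)) v l (fun z => κ z + itv x v z) else 0) +
      φ x v * Rr φ (finH (Zt m)) v l κ =
      (if x < v then Rr φ (finM m) v l (fun z => κ z + itv x v z) else 0) +
      φ x v * Rr φ (finM m) v l κ
    rw [ih v _ hg hl, ih v κ hκ hl]

theorem main : S_MOD4 := fun m φ x l h => aux m φ l x _ (fun _ => rfl) h

end Pool.Agent.W131.HTMod4
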