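import Pool.Agent.W894.HT.Lib

/-!
# Project HT, part PTM: the tournament of a list of stages is computable in polynomial time
-/

namespace Pool.Agent.W131.HTPtm

open Pool.Agent.W894.HT Pool.Agent.NPC Pool.Agent.NPC.Poly

variable {α β : Type} [TEnc α] [TEnc β]

theorem hub_poly {k : α → ℕ} (hk : Poly k) : Poly (fun a => hub (k a)) :=
  pair (const 0) (pair hk (const (0, 0, false)))

theorem rv_poly {k : α → ℕ} {b : α → Bool} {i : α → ℕ} (hk : Poly k) (hb : Poly b)
    (hi : Poly i) : Poly (fun a => rv (k a) (b a) (i a)) :=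
  pair (const 1) (pair hk (pair hi (pair (const 0) hb)))

theorem xv_poly {k : α → ℕ} {b : α → Bool} {i : α → ℕ} (hk : Poly k) (hb : Poly b)
    (hi : Poly i) : Poly (fun a => xv (k a) (b a) (i a)) :=
  pair (const 2) (pair hk (pair hi (pair (const 0) hb)))

theorem yv_poly {k : α → ℕ} {b : α → Bool} {i : α → ℕ} (hk : Poly k) (hb : Poly b)
    (hi : Poly i) : Poly (fun a => yv (k a) (b a) (i a)) :=
  pair (const 3) (pair hk (pair hi (pair (const 0) hb)))

theorem sh_poly {l : α → Lb} (hl : Poly l) : Poly (fun a => sh (l a)) :=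
  pair (const 4) hl

theorem gE_poly {k : α → ℕ} {b : α → Bool} {i : α → ℕ} {l : α → Lb} (hk : Poly k)
    (hb : Poly b) (hi : Poly i) (hl : Poly l) :
    Poly (fun a => gE (k a) (b a) (i a) (l a)) :=
  cons (pair (rv_poly hk hb hi) (rv_poly hk hb (succ hi)))
    (cons (pair (rv_poly hk hb hi) (yv_poly hk hb hi))
      (cons (pair (yv_poly hk hb hi) (xv_poly hk hb hi))
        (cons (pair (xv_poly hk hb hi) (rv_poly hk hb (succ hi)))
          (cons (pair (sh_poly hl) (xv_poly hk hb hi))
            (cons (pair (sh_poly hl) (yv_poly hk hb hi)) (const []))))))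

theorem rE_poly {k : α → ℕ} {b : α → Bool} {L : α → List Lb} (hk : Poly k) (hb : Poly b)
    (hL : Poly L) : Poly (fun a => rE (k a) (b a) (L a)) :=
  append (cons (pair (hub_poly hk) (rv_poly hk hb (const 0)))
      (flatMap (F := fun (a : α) (p : Lb × ℕ) => gE (k a) (b a) p.2 p.1) (zipIdx hL)
        (gE_poly (hk.comp (fst id)) (hb.comp (fst id)) (snd (snd id)) (fst (snd id)))))
    (cons (pair (rv_poly hk hb (length hL)) (hub_poly (succ hk))) (const []))

theorem EE_poly {S : α → Stg} (hS : Poly S) : Poly (fun a => EE (S a)) :=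
  flatMap (F := fun (_ : α) (p : (List Lb × List Lb) × ℕ) =>
      rE p.2 false p.1.1 ++ rE p.2 true p.1.2) (zipIdx hS)
    (append (rE_poly (snd (snd id)) (const false) (fst (fst (snd id))))
      (rE_poly (snd (snd id)) (const true) (snd (fst (snd id)))))

theorem adS_poly {S : α → Stg} {u v : α → Nm} (hS : Poly S) (hu : Poly u) (hv : Poly v) :
    Poly (fun a => adS (S a) (u a) (v a)) := by
  let _ : DecidableEq (Nm × Nm) := Classical.decEq _
  refine (Poly.or (decide_mem (pair hu hv) (EE_poly hS))
    (decide_mem (pair hv hu) (EE_poly hS))).congr fun a => ?_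
  exact congrArg₂ (· || ·) (decide_eq_decide.2 Iff.rfl) (decide_eq_decide.2 Iff.rfl)

omit [TEnc β] in
theorem ddg_cons [DecidableEq β] (b : β) (l : List β) :
    ddg (b :: l) = if b ∈ ddg l then ddg l else b :: ddg l := rfl

theorem sz_ddg [DecidableEq β] (l : List β) : sz (ddg l) ≤ sz l := by
  induction l with
  | nil => exact le_rfl
  | cons b l ih =>
    rw [ddg_cons]
    split_ifs
    · rw [sz_list_cons]
      omega
    · rw [sz_list_cons, sz_list_cons]
      omega

theorem ddg_poly [DecidableEq β] {l : α → List β} (hl : Poly l) : Poly (fun a => ddg (l a)) := by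
  obtain ⟨r, hr⟩ := hl.sz_le
  exact foldr (F := fun _ b s => if b ∈ s then s else b :: s) (s := fun _ => ([] : List β)) hl
    (const []) (ite (decide_mem (fst (snd id)) (snd (snd id))) (snd (snd id))
      (cons (fst (snd id)) (snd (snd id)))) r
    (fun a k _ => (sz_ddg ((l a).drop k)).trans ((sz_drop_le _ _).trans (hr a)))

theorem restS_poly {S : α → Stg} (hS : Poly S) : Poly (fun a => restS (S a)) :=
  filter (p := fun (a : α) (v : Nm) => !decide (v = hub 0) && !decide (v = hub (S a).length))
    (ddg_poly (flatMap (F := fun (_ : α) (p : Nm × Nm) => [p.1, p.2]) (EE_poly hS)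
      (cons (fst (snd id)) (cons (snd (snd id)) (const [])))))
    (Poly.and (not (decide_eq (snd id) (const (hub 0))))
      (not (decide_eq (snd id) (hub_poly (length (hS.comp (fst id)))))))

theorem wv_poly {x e : α → β} {rest : α → List β} (hx : Poly x) (he : Poly e)
    (hr : Poly rest) : Poly (fun a => wv (x a) (e a) (rest a)) :=
  append (cons (some he) (cons (const none) (cons (some hx) (const []))))
    (flatMap (F := fun _ v => [none, none, Option.some v]) hr
      (cons (const none) (cons (const none) (cons (some (snd id)) (const [])))))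

theorem adO_poly {S : α → Stg} {o o' : α → Option Nm} (hS : Poly S) (ho : Poly o)
    (ho' : Poly o') : Poly (fun a => adO (adS (S a)) (o a) (o' a)) := by
  have h1 : Poly (fun p : α × Nm => adO (adS (S p.1)) (Option.some p.2) (o' p.1)) := by
    refine (optCases (o := fun p : α × Nm => o' p.1) (g := fun _ => false)
      (h := fun p v => adS (S p.1) p.2 v) (ho'.comp (fst id)) (const false)
      (adS_poly (hS.comp (fst (fst id))) (snd (fst id)) (snd id))).congr fun p => ?_
    cases o' p.1 <;> rfl
  refine (optCases (o := o) (g := fun _ => false)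
    (h := fun a u => adO (adS (S a)) (Option.some u) (o' a)) ho (const false) h1).congr fun a => ?_
  cases o a <;> cases o' a <;> rfl

theorem tm_poly {S : α → Stg} {W : α → List (Option Nm)} (hS : Poly S) (hW : Poly W) :
    Poly (fun a => tm (adS (S a)) (W a)) :=
  map (F := fun (a : α) (p : Option Nm × ℕ) => (W a).zipIdx.map fun (q : Option Nm × ℕ) =>
      if p.2 < q.2 then !adO (adS (S a)) p.1 q.1
      else if q.2 < p.2 then adO (adS (S a)) p.1 q.1 else false) (zipIdx hW)
    (map (F := fun (x : α × (Option Nm × ℕ)) (q : Option Nm × ℕ) =>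
      if x.2.2 < q.2 then !adO (adS (S x.1)) x.2.1 q.1
      else if q.2 < x.2.2 then adO (adS (S x.1)) x.2.1 q.1 else false)
      (zipIdx (hW.comp (fst id)))
      (ite (decide_lt (snd (snd (fst id))) (snd (snd id)))
        (not (adO_poly (hS.comp (fst (fst id))) (fst (snd (fst id))) (fst (snd id))))
        (ite (decide_lt (snd (snd id)) (snd (snd (fst id))))
          (adO_poly (hS.comp (fst (fst id))) (fst (snd (fst id))) (fst (snd id)))
          (const false))))

theorem main : S_PTM :=
  tm_poly id (wv_poly (const (hub 0)) (hub_poly (length id)) (restS_poly id))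

end Pool.Agent.W131.HTPtm
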