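import Pool.Agent.W894.HT.Ex

/-!
# Project HT, part XNUM: the number of spacers is large enough
-/

namespace Pool.Agent.W131.HTXnum

open Pool.Agent.W894.HT

theorem bern (n : ℕ) (hn : 1 ≤ n) : 2 * n ^ n ≤ (n + 1) ^ n := by
  have hn0 : (0 : ℝ) < n := by exact_mod_cast hn
  have h1 : (1 : ℝ) + n * (1 / n) ≤ (1 + 1 / n) ^ n :=
    one_add_mul_le_pow (by have : (0 : ℝ) ≤ 1 / n := by positivity
                           linarith) n
  have h2 : (n : ℝ) * (1 / n) = 1 := by field_simp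
  have h3 : ((1 : ℝ) + 1 / n) * n = n + 1 := by field_simp
  have h4 : (2 : ℝ) * (n : ℝ) ^ n ≤ ((n : ℝ) + 1) ^ n := by
    rw [← h3, mul_pow]
    refine mul_le_mul_of_nonneg_right ?_ (by positivity)
    linarith
  exact_mod_cast h4

theorem main : S_XNUM := by
  intro n hn
  have h1 : 2 ^ (4 * n ^ 2 + 2 * n + 2) * n ^ MX n ≤ (n + 1) ^ MX n := by
    unfold MX
    rw [pow_mul, pow_mul, ← mul_pow]
    exact Nat.pow_le_pow_left (bern n hn) _
  have h2 : (2 * n).factorial ≤ 2 ^ (4 * n ^ 2) := by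
    calc (2 * n).factorial ≤ (2 * n) ^ (2 * n) := Nat.factorial_le_pow _
      _ ≤ (2 ^ (2 * n)) ^ (2 * n) := Nat.pow_le_pow_left (Nat.lt_two_pow_self).le _
      _ = 2 ^ (4 * n ^ 2) := by
        rw [← pow_mul]
        congr 1
        ring
  have h3 : 4 ^ n = 2 ^ (2 * n) := by
    rw [pow_mul]
    norm_num
  have hp : 0 < n ^ MX n := Nat.pow_pos hn
  have h4 : 2 * ((2 * n).factorial * 4 ^ n * n ^ MX n) ≤
      2 * (2 ^ (4 * n ^ 2) * 2 ^ (2 * n) * n ^ MX n) := by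
    rw [h3]
    exact Nat.mul_le_mul_left _ (Nat.mul_le_mul_right _ (Nat.mul_le_mul_right _ h2))
  refine lt_of_le_of_lt h4 (lt_of_lt_of_le ?_ h1)
  rw [pow_add, pow_add]
  have h5 : 0 < 2 ^ (4 * n ^ 2) * 2 ^ (2 * n) * n ^ MX n := by positivity
  calc 2 * (2 ^ (4 * n ^ 2) * 2 ^ (2 * n) * n ^ MX n)
      < 4 * (2 ^ (4 * n ^ 2) * 2 ^ (2 * n) * n ^ MX n) := by omega
    _ = 2 ^ (4 * n ^ 2) * 2 ^ (2 * n) * 2 ^ 2 * n ^ MX n := by ring

end Pool.Agent.W131.HTXnum
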