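import Mathlib
import Pool.Agent.W526.LL.Stm

/-! LL-H2: the Hecke counting identity. -/

namespace Pool.Agent.W131.LLH2

open Pool.Agent.W526.LL WithZero

section Local

variable {F : Type} [Field F] [Valued F ℤᵐ⁰]

theorem lt_one_iff {x : ℤᵐ⁰} : x ≤ exp (-1 : ℤ) ↔ x < 1 := by
  rcases eq_or_ne x 0 with rfl | hx
  · simp
  · rw [← exp_log hx, exp_le_exp, ← exp_zero, exp_lt_exp]
    omega

theorem div_le_one (D : LD F) (y : F) : Valued.v (D.ϖ⁻¹ * y) ≤ 1 ↔ Valued.v y < 1 := by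
  rw [← lt_one_iff, map_mul, map_inv₀, D.hϖ, ← exp_neg]
  constructor
  · intro h
    have := mul_le_mul' (le_refl (exp (-1 : ℤ))) h
    rwa [← mul_assoc, ← exp_add, mul_one, neg_neg, neg_add_cancel, exp_zero, one_mul] at this
  · intro h
    have := mul_le_mul' (le_refl (exp (-(-1) : ℤ))) h
    rwa [← exp_add, neg_add_cancel, exp_zero] at this

/-- the pointwise count -/
theorem point (D : LD F) (a b : F) (ha : Valued.v a ≤ 1) (hb : Valued.v b ≤ 1) :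
    (∑ t ∈ D.T, @ite ℕ (Valued.v (b - t * a) < 1) (Classical.dec _) 1 0) +
      @ite ℕ (Valued.v a < 1) (Classical.dec _) 1 0 =
    1 + D.T.card * @ite ℕ (Valued.v a < 1 ∧ Valued.v b < 1) (Classical.dec _) 1 0 := by
  classical
  by_cases h1 : Valued.v a < 1
  · have key : ∀ t ∈ D.T, (Valued.v (b - t * a) < 1 ↔ Valued.v b < 1) := by
      intro t ht
      have hta : Valued.v (t * a) < 1 := by
        rw [map_mul]
        exact mul_lt_one_of_nonneg_of_lt_one_right (D.hT t ht) zero_le h1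
      constructor
      · intro h
        have e : b = (b - t * a) + t * a := by ring
        rw [e]; exact Valued.v.map_add_lt h hta
      · intro h
        exact Valued.v.map_sub_lt h hta
    by_cases h2 : Valued.v b < 1
    · have : (∑ t ∈ D.T, @ite ℕ (Valued.v (b - t * a) < 1) (Classical.dec _) 1 0) = D.T.card := by
        rw [Finset.card_eq_sum_ones]
        refine Finset.sum_congr rfl fun t ht => ?_
        rw [if_pos ((key t ht).mpr h2)]
      rw [this, if_pos h1, if_pos ⟨h1, h2⟩]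
      ring
    · have : (∑ t ∈ D.T, @ite ℕ (Valued.v (b - t * a) < 1) (Classical.dec _) 1 0) = 0 := by
        refine Finset.sum_eq_zero fun t ht => ?_
        rw [if_neg (fun h => h2 ((key t ht).mp h))]
      rw [this, if_pos h1, if_neg (fun h => h2 h.2)]
      simp
  · have ha1 : Valued.v a = 1 := le_antisymm ha (not_lt.mp h1)
    have ha0 : a ≠ 0 := by
      rintro rfl
      rw [map_zero] at ha1
      exact zero_ne_one ha1
    have hba : Valued.v (b * a⁻¹) ≤ 1 := by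
      rw [map_mul, map_inv₀, ha1, inv_one, mul_one]; exact hb
    obtain ⟨t0, ht0, h0⟩ := D.hrep _ hba
    have key : ∀ t, Valued.v (b - t * a) = Valued.v (b * a⁻¹ - t) := by
      intro t
      have e : b - t * a = (b * a⁻¹ - t) * a := by
        rw [sub_mul, mul_assoc, inv_mul_cancel₀ ha0, mul_one]
      rw [e, map_mul, ha1, mul_one]
    have : (∑ t ∈ D.T, @ite ℕ (Valued.v (b - t * a) < 1) (Classical.dec _) 1 0) = 1 := by
      rw [Finset.sum_eq_single t0]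
      · rw [if_pos (by rw [key]; exact h0)]
      · intro t ht hne
        rw [if_neg]
        intro h
        rw [key] at h
        apply hne
        apply D.huniq t ht t0 ht0
        have e : t - t0 = (b * a⁻¹ - t0) - (b * a⁻¹ - t) := by ring
        rw [e]
        exact Valued.v.map_sub_lt h0 h
      · intro h; exact absurd ht0 h
    rw [this, if_neg h1, if_neg (fun h => h1 h.1), mul_zero]

end Local

theorem vec_mul {p : Pl} (h k : GL (Fin 2) (Kv p)) (x : KK × KK) (i : Fin 2) :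
    vec (h * k)⁻¹ x i = k⁻¹ i 0 * vec h⁻¹ x 0 + k⁻¹ i 1 * vec h⁻¹ x 1 := by
  simp only [vec, mul_inv_rev, mul_ij]
  ring

theorem mem_Lg {g : GA} {x : KK × KK} : x ∈ Lg g ↔ ∀ p i, Valued.v (vec (g p)⁻¹ x i) ≤ 1 :=
  Iff.rfl

/-- membership in the lattice of a Hecke translate -/
theorem mem_iff (g : GA) (p : Pl) (h : GL (Fin 2) (Kv p)) (x : KK × KK) :
    x ∈ Lg (g * inj p h) ↔ (∀ q, q ≠ p → ∀ i, Valued.v (vec (g q)⁻¹ x i) ≤ 1) ∧
      ∀ i, Valued.v (h⁻¹ i 0 * vec (g p)⁻¹ x 0 + h⁻¹ i 1 * vec (g p)⁻¹ x 1) ≤ 1 := by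
  rw [mem_Lg]
  constructor
  · intro H
    refine ⟨fun q hq i => ?_, fun i => ?_⟩
    · have := H q i
      rwa [mul_apply, inj_ne hq, mul_one] at this
    · have := H p i
      rwa [mul_apply, inj_same, vec_mul] at this
  · rintro ⟨H1, H2⟩ q i
    rcases eq_or_ne q p with rfl | hq
    · rw [mul_apply, inj_same, vec_mul]; exact H2 i
    · rw [mul_apply, inj_ne hq, mul_one]; exact H1 q hq i

theorem mem_iff_one (g : GA) (p : Pl) (x : KK × KK) :
    x ∈ Lg g ↔ (∀ q, q ≠ p → ∀ i, Valued.v (vec (g q)⁻¹ x i) ≤ 1) ∧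
      Valued.v (vec (g p)⁻¹ x 0) ≤ 1 ∧ Valued.v (vec (g p)⁻¹ x 1) ≤ 1 := by
  rw [mem_Lg]
  constructor
  · intro H
    exact ⟨fun q _ i => H q i, H p 0, H p 1⟩
  · rintro ⟨H1, H2, H3⟩ q i
    rcases eq_or_ne q p with rfl | hq
    · fin_cases i
      · exact H2
      · exact H3
    · exact H1 q hq i

theorem mem_lo (g : GA) (p : Pl) (D : LD (Kv p)) (t : Kv p) (ht : Valued.v t ≤ 1) (x : KK × KK) :
    x ∈ Lg (g * inj p (lo t * D.al)) ↔
      x ∈ Lg g ∧ Valued.v (vec (g p)⁻¹ x 1 - t * vec (g p)⁻¹ x 0) < 1 := by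
  have hne := D.ne
  have i00 : (lo t * D.al)⁻¹ 0 0 = 1 := by
    rw [inv_00]; simp [dt, mul_ij, lo, LD.al, dg, hne]
  have i01 : (lo t * D.al)⁻¹ 0 1 = 0 := by
    rw [inv_01]; simp [dt, mul_ij, lo, LD.al, dg]
  have i10 : (lo t * D.al)⁻¹ 1 0 = -(D.ϖ⁻¹ * t) := by
    rw [inv_10]; simp [dt, mul_ij, lo, LD.al, dg]
  have i11 : (lo t * D.al)⁻¹ 1 1 = D.ϖ⁻¹ := by
    rw [inv_11]; simp [dt, mul_ij, lo, LD.al, dg]
  rw [mem_iff, mem_iff_one g p]
  set a := vec (g p)⁻¹ x 0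
  set b := vec (g p)⁻¹ x 1
  have e0 : (∀ i, Valued.v ((lo t * D.al)⁻¹ i 0 * a + (lo t * D.al)⁻¹ i 1 * b) ≤ 1) ↔
      Valued.v a ≤ 1 ∧ Valued.v (b - t * a) < 1 := by
    rw [Fin.forall_fin_two, i00, i01, i10, i11, one_mul, zero_mul, add_zero]
    have e : -(D.ϖ⁻¹ * t) * a + D.ϖ⁻¹ * b = D.ϖ⁻¹ * (b - t * a) := by ring
    rw [e, div_le_one]
  rw [e0]
  constructor
  · rintro ⟨H1, H2, H3⟩
    refine ⟨⟨H1, H2, ?_⟩, H3⟩
    have e : b = (b - t * a) + t * a := by ring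
    rw [e]
    refine Valued.v.map_add_le H3.le ?_
    rw [map_mul]
    exact mul_le_one' ht H2
  · rintro ⟨⟨H1, H2, _⟩, H4⟩
    exact ⟨H1, H2, H4⟩

theorem mem_ws (g : GA) (p : Pl) (D : LD (Kv p)) (x : KK × KK) :
    x ∈ Lg (g * inj p (ws * D.al)) ↔ x ∈ Lg g ∧ Valued.v (vec (g p)⁻¹ x 0) < 1 := by
  have hne := D.ne
  have i00 : ((ws : GL (Fin 2) (Kv p)) * D.al)⁻¹ 0 0 = 0 := by
    rw [inv_00]; simp [dt, mul_ij, ws, LD.al, dg]
  have i01 : ((ws : GL (Fin 2) (Kv p)) * D.al)⁻¹ 0 1 = 1 := by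
    rw [inv_01]; simp [dt, mul_ij, ws, LD.al, dg, hne]
  have i10 : ((ws : GL (Fin 2) (Kv p)) * D.al)⁻¹ 1 0 = D.ϖ⁻¹ := by
    rw [inv_10]; simp [dt, mul_ij, ws, LD.al, dg]
  have i11 : ((ws : GL (Fin 2) (Kv p)) * D.al)⁻¹ 1 1 = 0 := by
    rw [inv_11]; simp [dt, mul_ij, ws, LD.al, dg]
  rw [mem_iff, mem_iff_one g p]
  set a := vec (g p)⁻¹ x 0
  set b := vec (g p)⁻¹ x 1
  have e0 : (∀ i, Valued.v (((ws : GL (Fin 2) (Kv p)) * D.al)⁻¹ i 0 * a + ((ws : GL (Fin 2) (Kv p)) * D.al)⁻¹ i 1 * b) ≤ 1) ↔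
      Valued.v b ≤ 1 ∧ Valued.v a < 1 := by
    rw [Fin.forall_fin_two, i00, i01, i10, i11, one_mul, zero_mul, zero_mul, add_zero, zero_add,
      div_le_one]
  rw [e0]
  constructor
  · rintro ⟨H1, H2, H3⟩
    exact ⟨⟨H1, H3.le, H2⟩, H3⟩
  · rintro ⟨⟨H1, _, H3⟩, H4⟩
    exact ⟨H1, H3, H4⟩

theorem mem_z (g : GA) (p : Pl) (D : LD (Kv p)) (x : KK × KK) :
    x ∈ Lg (g * inj p D.z) ↔
      x ∈ Lg g ∧ (Valued.v (vec (g p)⁻¹ x 0) < 1 ∧ Valued.v (vec (g p)⁻¹ x 1) < 1) := by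
  have hne := D.ne
  have i00 : D.z⁻¹ 0 0 = D.ϖ⁻¹ := by
    rw [inv_00]; simp [dt, LD.z, sc, hne]
  have i01 : D.z⁻¹ 0 1 = 0 := by
    rw [inv_01]; simp [LD.z, sc]
  have i10 : D.z⁻¹ 1 0 = 0 := by
    rw [inv_10]; simp [LD.z, sc]
  have i11 : D.z⁻¹ 1 1 = D.ϖ⁻¹ := by
    rw [inv_11]; simp [dt, LD.z, sc, hne]
  rw [mem_iff, mem_iff_one g p]
  set a := vec (g p)⁻¹ x 0
  set b := vec (g p)⁻¹ x 1
  have e0 : (∀ i, Valued.v (D.z⁻¹ i 0 * a + D.z⁻¹ i 1 * b) ≤ 1) ↔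
      Valued.v a < 1 ∧ Valued.v b < 1 := by
    rw [Fin.forall_fin_two, i00, i01, i10, i11, zero_mul, zero_mul, add_zero, zero_add,
      div_le_one, div_le_one]
  rw [e0]
  constructor
  · rintro ⟨H1, H2, H3⟩
    exact ⟨⟨H1, H2.le, H3.le⟩, H2, H3⟩
  · rintro ⟨⟨H1, _, _⟩, H4⟩
    exact ⟨H1, H4⟩

/-- the number of sections as a sum over a finite set -/
theorem HH_sum (g g' : GA) (L : Finset (KK × KK)) (hL : ∀ x, x ∈ L ↔ x ∈ Lg g)
    (P : KK × KK → Prop) (hP : ∀ x, x ∈ Lg g' ↔ x ∈ Lg g ∧ P x) :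
    HH g' = ∑ x ∈ L, @ite ℕ (P x) (Classical.dec _) 1 0 := by
  classical
  have e : (Lg g' : Set (KK × KK)) = ((L.filter P : Finset (KK × KK)) : Set (KK × KK)) := by
    ext x
    rw [SetLike.mem_coe, hP, Finset.mem_coe, Finset.mem_filter, hL]
  have h1 : HH g' = (L.filter P).card := by
    show Nat.card (Lg g' : Set (KK × KK)) = _
    rw [e]
    simp
  rw [h1, Finset.card_filter]

/-- LL-H2 -/
theorem main : S_H2 := by
  classical
  intro hfin p D g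
  have hfg : (Lg g : Set (KK × KK)).Finite := hfin g
  set L := hfg.toFinset with hLdef
  have hL : ∀ x, x ∈ L ↔ x ∈ Lg g := fun x => by rw [hLdef, Set.Finite.mem_toFinset]; rfl
  have h1 : ∀ t ∈ D.T, HH (g * inj p (lo t * D.al)) = ∑ x ∈ L,
      @ite ℕ (Valued.v (vec (g p)⁻¹ x 1 - t * vec (g p)⁻¹ x 0) < 1) (Classical.dec _) 1 0 :=
    fun t ht => HH_sum g _ L hL _ (fun x => mem_lo g p D t (D.hT t ht) x)
  have h2 := HH_sum g _ L hL _ (fun x => mem_ws g p D x)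
  have h3 := HH_sum g _ L hL _ (fun x => mem_z g p D x)
  have h4 : HH g = ∑ x ∈ L, 1 := by
    have := HH_sum g g L hL (fun _ => True) (fun x => by simp)
    rw [this]
    exact Finset.sum_congr rfl fun x _ => by rw [if_pos trivial]
  rw [Finset.sum_congr rfl h1, h2, h3, h4, Finset.sum_comm, Finset.mul_sum,
    ← Finset.sum_add_distrib, ← Finset.sum_add_distrib]
  refine Finset.sum_congr rfl fun x hx => ?_
  have hx' := (mem_iff_one g p x).mp ((hL x).mp hx)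
  exact point D _ _ hx'.2.1 hx'.2.2

end Pool.Agent.W131.LLH2
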