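import Pool.Agent.W527.PC.Stm

set_option autoImplicit false

/-! Project PC: the argument with indices. -/

namespace Pool.Agent.W131.PCINDEX
open Pool.Agent.W527.PC

/-- index of the `p`-th powers -/
noncomputable def pidx (p : ℕ) (G : Type) [CommGroup G] : ℕ := (powMonoidHom p : G →* G).range.index

theorem rel_pidx (p : ℕ) {G : Type} [CommGroup G] (H : Subgroup G) :
    (H.map (powMonoidHom p)).relIndex H = pidx p H := by
  unfold pidx Subgroup.relIndex
  congr 1
  ext x
  rw [Subgroup.mem_subgroupOf, Subgroup.mem_map, MonoidHom.mem_range]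
  constructor
  · rintro ⟨y, hy, h⟩
    exact ⟨⟨y, hy⟩, Subtype.ext h⟩
  · rintro ⟨y, h⟩
    exact ⟨y.1, y.2, congrArg Subtype.val h⟩

theorem pidx_iso (p : ℕ) {G G' : Type} [CommGroup G] [CommGroup G'] (e : G ≃* G') :
    pidx p G = pidx p G' := by
  unfold pidx
  have h : (powMonoidHom p : G' →* G').range =
      ((powMonoidHom p : G →* G).range).map (e : G →* G') := by
    ext x
    rw [Subgroup.mem_map, MonoidHom.mem_range]
    constructor
    · rintro ⟨y, rfl⟩
      refine ⟨(e.symm y) ^ p, ⟨e.symm y, rfl⟩, ?_⟩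
      show e ((e.symm y) ^ p) = y ^ p
      rw [map_pow, MulEquiv.apply_symm_apply]
    · rintro ⟨z, ⟨w, hw⟩, h⟩
      refine ⟨e w, ?_⟩
      have hw' : w ^ p = z := hw
      have h' : e z = x := h
      show (e w) ^ p = x
      rw [← map_pow, hw', h']
  rw [h]
  exact (Subgroup.index_map_equiv _ e).symm

theorem pidx_fin (p : ℕ) {G : Type} [CommGroup G] (hG : ∀ g : G, g ^ p = 1 → g = 1)
    (H : Subgroup G) (hH : H.FiniteIndex) : pidx p H = pidx p G := by
  have hinj : Function.Injective (powMonoidHom p : G →* G) := by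
    rw [injective_iff_map_eq_one]
    exact hG
  rw [← rel_pidx]
  set HP := H.map (powMonoidHom p : G →* G) with hHP
  have h1 : HP ≤ H := by
    rintro _ ⟨y, hy, rfl⟩
    exact H.pow_mem hy p
  have h2 : HP ≤ (powMonoidHom p : G →* G).range := by
    rintro _ ⟨y, _, rfl⟩
    exact ⟨y, rfl⟩
  have h3 := Subgroup.relIndex_mul_index h1
  have h4 := Subgroup.relIndex_mul_index h2
  have h5 : HP.relIndex (powMonoidHom p : G →* G).range = H.index := by
    rw [hHP, MonoidHom.range_eq_map, Subgroup.relIndex_map_map_of_injective _ _ hinj,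
      Subgroup.relIndex_top_right]
  rw [h5] at h4
  have h6 : HP.relIndex H * H.index = (powMonoidHom p : G →* G).range.index * H.index := by
    rw [h3, ← h4, mul_comm]
  exact Nat.eq_of_mul_eq_mul_right (Nat.pos_of_ne_zero hH.index_ne_zero) h6

/-- the coordinatewise reduction -/
def red {p ℓ : ℕ} {R : Type} [CommRing R] (q : R →+* ZMod p) :
    Multiplicative (Fin ℓ → R) →* Multiplicative (Fin ℓ → ZMod p) where
  toFun x := Multiplicative.ofAdd (fun i => q (Multiplicative.toAdd x i))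
  map_one' := by
    apply Multiplicative.toAdd.injective
    funext i
    exact map_zero q
  map_mul' x y := by
    apply Multiplicative.toAdd.injective
    funext i
    exact map_add q _ _

theorem pidx_pi (p ℓ : ℕ) (R : Type) [CommRing R] (q : R →+* ZMod p)
    (hs : Function.Surjective q) (hq : ∀ r, q r = 0 → ∃ s, r = p * s) :
    pidx p (Multiplicative (Fin ℓ → R)) = p ^ ℓ := by
  unfold pidx
  have h1 : (powMonoidHom p : Multiplicative (Fin ℓ → R) →* Multiplicative (Fin ℓ → R)).range =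
      (red (ℓ := ℓ) q).ker := by
    ext x
    rw [MonoidHom.mem_range, MonoidHom.mem_ker]
    constructor
    · rintro ⟨y, rfl⟩
      apply Multiplicative.toAdd.injective
      funext i
      show q ((p • (Multiplicative.toAdd y)) i) = 0
      rw [Pi.smul_apply, nsmul_eq_mul, map_mul, map_natCast, ZMod.natCast_self, zero_mul]
    · intro h
      have h2 : ∀ i, ∃ s, (Multiplicative.toAdd x) i = p * s := by
        intro i
        apply hq
        have h3 := congrArg (fun z : Multiplicative (Fin ℓ → ZMod p) => Multiplicative.toAdd z i) h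
        exact h3
      choose s hs' using h2
      refine ⟨Multiplicative.ofAdd s, ?_⟩
      apply Multiplicative.toAdd.injective
      funext i
      show (p • s) i = Multiplicative.toAdd x i
      rw [Pi.smul_apply, nsmul_eq_mul, hs' i]
  rw [h1, Subgroup.index_ker]
  have h4 : Function.Surjective (red (ℓ := ℓ) q) := by
    intro y
    choose s hs' using fun i => hs (Multiplicative.toAdd y i)
    refine ⟨Multiplicative.ofAdd s, ?_⟩
    apply Multiplicative.toAdd.injective
    funext i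
    exact hs' i
  rw [MonoidHom.range_eq_top.2 h4, Subgroup.card_top]
  show Nat.card (Fin ℓ → ZMod p) = p ^ ℓ
  rw [Nat.card_fun, Nat.card_zmod, Nat.card_fin]

theorem pidx_int (p ℓ : ℕ) : pidx p (Multiplicative (Fin ℓ → ℤ)) = p ^ ℓ := by
  apply pidx_pi p ℓ ℤ (Int.castRingHom (ZMod p)) (ZMod.ringHom_surjective _)
  intro r hr
  have h : (p : ℤ) ∣ r := (ZMod.intCast_zmod_eq_zero_iff_dvd r p).1 hr
  exact h

theorem pidx_padic (p ℓ : ℕ) [Fact p.Prime] :
    pidx p (Multiplicative (Fin ℓ → ℤ_[p])) = p ^ ℓ := by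
  apply pidx_pi p ℓ ℤ_[p] PadicInt.toZMod (ZMod.ringHom_surjective _)
  intro r hr
  have h1 : r ∈ RingHom.ker (PadicInt.toZMod : ℤ_[p] →+* ZMod p) := hr
  rw [PadicInt.ker_toZMod, PadicInt.maximalIdeal_eq_span_p, Ideal.mem_span_singleton] at h1
  exact h1

theorem pidx_sub (p ℓ : ℕ) [hp : Fact p.Prime] (H' : AddSubgroup (Fin ℓ → ℤ_[p]))
    (hH' : H'.FiniteIndex) : pidx p (Multiplicative H') = p ^ ℓ := by
  rw [← pidx_padic p ℓ]
  have h1 : (AddSubgroup.toSubgroup H').FiniteIndex := by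
    constructor
    have h2 := hH'.index_ne_zero
    exact h2
  rw [← pidx_fin p _ (AddSubgroup.toSubgroup H') h1]
  · apply pidx_iso p
    exact
      { toFun := fun z => ⟨Multiplicative.ofAdd (Multiplicative.toAdd z).1,
          (Multiplicative.toAdd z).2⟩
        invFun := fun z => Multiplicative.ofAdd ⟨Multiplicative.toAdd z.1, z.2⟩
        left_inv := fun z => rfl
        right_inv := fun z => rfl
        map_mul' := fun z w => rfl }
  · intro g hg
    apply Multiplicative.toAdd.injective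
    funext i
    have h3 := congrArg (fun z : Multiplicative (Fin ℓ → ℤ_[p]) => Multiplicative.toAdd z i) hg
    have h4 : (p • (Multiplicative.toAdd g)) i = 0 := h3
    rw [Pi.smul_apply, nsmul_eq_mul] at h4
    have h5 : ((p : ℕ) : ℤ_[p]) ≠ 0 := by
      exact_mod_cast hp.out.ne_zero
    exact (mul_eq_zero.1 h4).resolve_left h5

theorem closed_sup {A : Type} [CommGroup A] [TopologicalSpace A] [IsTopologicalGroup A]
    [T2Space A] (Λ P : Subgroup A) (hP : IsCompact (P : Set A)) (hf : P.relIndex Λ ≠ 0) :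
    IsClosed ((Λ ⊔ P : Subgroup A) : Set A) := by
  have hfin : Finite (Λ ⧸ P.subgroupOf Λ) := by
    have : (P.subgroupOf Λ).FiniteIndex := ⟨hf⟩
    exact Subgroup.finite_quotient_of_finiteIndex
  have h1 : ((Λ ⊔ P : Subgroup A) : Set A) =
      ⋃ q : Λ ⧸ P.subgroupOf Λ, (fun a => (q.out : A) * a) '' (P : Set A) := by
    ext x
    rw [SetLike.mem_coe, Subgroup.mem_sup, Set.mem_iUnion]
    constructor
    · rintro ⟨y, hy, z, hz, rfl⟩
      refine ⟨QuotientGroup.mk ⟨y, hy⟩, ?_⟩
      obtain ⟨h, hh⟩ := QuotientGroup.mk_out_eq_mul (P.subgroupOf Λ) ⟨y, hy⟩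
      have hh' : (((QuotientGroup.mk ⟨y, hy⟩ : Λ ⧸ P.subgroupOf Λ).out : Λ) : A) =
        y * ((h : Λ) : A) := congrArg Subtype.val hh
      refine ⟨((h : Λ) : A)⁻¹ * z, P.mul_mem (P.inv_mem h.2) hz, ?_⟩
      show (((QuotientGroup.mk ⟨y, hy⟩ : Λ ⧸ P.subgroupOf Λ).out : Λ) : A) *
        (((h : Λ) : A)⁻¹ * z) = y * z
      rw [hh', mul_assoc, mul_inv_cancel_left]
    · rintro ⟨q, z, hz, rfl⟩
      exact ⟨(q.out : A), q.out.2, z, hz, rfl⟩
  rw [h1]
  apply isClosed_iUnion_of_finite
  intro q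
  exact (hP.image (continuous_const_mul _)).isClosed

theorem t_INDEX : S_INDEX := by
  intro A _ _ _ _ Λ p hp ℓ hΛ hC htor hx
  obtain ⟨eΛ⟩ := hΛ
  obtain ⟨x, hxΛ, hxc, hxn⟩ := hx
  set C := Λ.topologicalClosure with hCdef
  rintro ⟨H, H', hH, hH', ⟨e⟩⟩
  set P : Subgroup A := C.map (powMonoidHom p) with hPdef
  have hΛC : Λ ≤ C := Subgroup.le_topologicalClosure Λ
  have hPC : P ≤ C := by
    rintro _ ⟨y, hy, rfl⟩
    exact C.pow_mem hy p
  have hPcomp : IsCompact (P : Set A) := by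
    have h1 : (P : Set A) = (fun y => y ^ p) '' (C : Set A) := by
      ext z
      exact Iff.rfl
    rw [h1]
    exact hC.image (continuous_pow p)
  -- the group C
  have hCinj : ∀ g : C, g ^ p = 1 → g = 1 := by
    intro g hg
    apply Subtype.ext
    exact htor g.1 g.2 (congrArg Subtype.val hg)
  have h1 : pidx p C = p ^ ℓ := by
    rw [← pidx_fin p hCinj H hH, pidx_iso p e, pidx_sub p ℓ H' hH']
  have h2 : P.relIndex C = p ^ ℓ := by
    rw [hPdef, rel_pidx, h1]
  -- the group Λ
  have h3 : (Λ.map (powMonoidHom p)).relIndex Λ = p ^ ℓ := by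
    rw [rel_pidx, pidx_iso p eΛ, pidx_int]
  set Q : Subgroup A := Λ.map (powMonoidHom p) with hQdef
  have hQΛ : Q ≤ Λ := by
    rintro _ ⟨y, hy, rfl⟩
    exact Λ.pow_mem hy p
  have hQP : Q ≤ P := by
    rintro _ ⟨y, hy, rfl⟩
    exact ⟨y, hΛC hy, rfl⟩
  have hxP : x ∈ P := by
    have h4 : closure ((fun y => y ^ p) '' (Λ : Set A)) ⊆ (P : Set A) := by
      apply closure_minimal _ hPcomp.isClosed
      rintro _ ⟨y, hy, rfl⟩
      exact ⟨y, hΛC hy, rfl⟩
    exact h4 hxc
  have h5 := Subgroup.relIndex_mul_relIndex Q (Λ ⊓ P) Λ (le_inf hQΛ hQP) inf_le_left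
  rw [h3] at h5
  have hpl : p ^ ℓ ≠ 0 := pow_ne_zero _ hp.out.ne_zero
  have h6 : (Λ ⊓ P).relIndex Λ = P.relIndex Λ := by
    rw [inf_comm]
    exact Subgroup.inf_relIndex_right P Λ
  have h7 : P.relIndex Λ ≠ 0 := by
    rw [← h6]
    intro h8
    rw [h8, mul_zero] at h5
    exact hpl h5.symm
  have h9 : Λ ⊔ P = C := by
    apply le_antisymm (sup_le hΛC hPC)
    exact Subgroup.topologicalClosure_minimal Λ le_sup_left (closed_sup Λ P hPcomp h7)
  have h10 : P.relIndex C = P.relIndex Λ := by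
    rw [← h9]
    exact Subgroup.relIndex_sup_right Λ P
  rw [h6, ← h10, h2] at h5
  have h11 : Q.relIndex (Λ ⊓ P) = 1 := by
    have h12 : Q.relIndex (Λ ⊓ P) * p ^ ℓ = 1 * p ^ ℓ := by rw [h5, one_mul]
    exact Nat.eq_of_mul_eq_mul_right (Nat.pos_of_ne_zero hpl) h12
  rw [Subgroup.relIndex_eq_one] at h11
  obtain ⟨y, hy, hyx⟩ := h11 (Subgroup.mem_inf.2 ⟨hxΛ, hxP⟩)
  exact hxn y hy hyx

end Pool.Agent.W131.PCINDEX
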