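import Pool.Agent.H24R2.DZ.Spec

set_option autoImplicit false

namespace Pool.Agent.W131.SMV

open Complex Filter Topology MeasureTheory Set
open Pool.Agent.H24R2.DZ

lemma ph_nonneg (u : ℝ) : 0 ≤ ph u := Real.smoothTransition.nonneg _

lemma ph_le_one (u : ℝ) : ph u ≤ 1 := Real.smoothTransition.le_one _

lemma ph_one_of {u : ℝ} (h : u ≤ 1 / 2) : ph u = 1 :=
  Real.smoothTransition.one_of_one_le (by linarith)

lemma ph_zero_of {u : ℝ} (h : 1 ≤ u) : ph u = 0 :=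
  Real.smoothTransition.zero_of_nonpos (by linarith)

lemma abs_moebius_le (n : ℕ) : |(ArithmeticFunction.moebius n : ℝ)| ≤ 1 := by
  have := ArithmeticFunction.abs_moebius_le_one (n := n)
  exact_mod_cast this

lemma abs_mo_le (θ L : ℝ) (h : ℕ) : |mo θ L h| ≤ 1 := by
  unfold mo
  rw [abs_mul]
  have h1 := abs_moebius_le h
  have h2 : |ph (Real.log h / (θ * L))| ≤ 1 := by
    rw [abs_of_nonneg (ph_nonneg _)]; exact ph_le_one _
  calc _ ≤ (1 : ℝ) * 1 := by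
        apply mul_le_mul h1 h2 (abs_nonneg _) (by norm_num)
    _ = 1 := by norm_num

lemma norm_bb_le (θ L : ℝ) (β : ℂ) (hβ : ‖β‖ ≤ 1) (h : ℕ) (hh : 1 ≤ h) :
    ‖bb θ L β h‖ ≤ h := by
  unfold bb
  rw [norm_mul, Complex.norm_natCast_cpow_of_pos (by omega)]
  have h1 : ‖(mo θ L h : ℂ)‖ ≤ 1 := by
    rw [Complex.norm_real]; exact abs_mo_le θ L h
  have h2 : (h : ℝ) ^ (-β).re ≤ (h : ℝ) := by
    have h3 : (-β).re ≤ 1 := by
      have := Complex.abs_re_le_norm (-β)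
      rw [norm_neg] at this
      have := abs_le.mp (this.trans hβ)
      exact this.2
    calc (h : ℝ) ^ (-β).re ≤ (h : ℝ) ^ (1 : ℝ) := by
          apply Real.rpow_le_rpow_of_exponent_le
          · exact_mod_cast hh
          · exact h3
      _ = h := Real.rpow_one _
  calc _ ≤ 1 * (h : ℝ) := by
        apply mul_le_mul h1 h2 (by positivity) (by norm_num)
    _ = h := one_mul _

lemma bb_one (θ L : ℝ) (β : ℂ) : bb θ L β 1 = 1 := by
  unfold bb mo
  have : ph (Real.log ((1 : ℕ) : ℝ) / (θ * L)) = 1 := by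
    apply ph_one_of; simp
  rw [this]
  simp

lemma bb_zero (θ T : ℝ) (β : ℂ) (hθ : 0 < θ) (hT : 1 < T) (h : ℕ) (hh : yy θ T < h) :
    bb θ (Real.log T) β h = 0 := by
  unfold bb mo
  have hL : 0 < Real.log T := Real.log_pos hT
  have h1 : T ^ θ ≤ (h : ℝ) := by
    calc T ^ θ ≤ (yy θ T : ℝ) := Nat.le_ceil _
      _ ≤ h := by exact_mod_cast hh.le
  have h2 : ph (Real.log h / (θ * Real.log T)) = 0 := by
    apply ph_zero_of
    rw [le_div_iff₀ (by positivity), one_mul, ← Real.log_rpow (by linarith)]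
    exact Real.log_le_log (by positivity) h1
  rw [h2]
  simp

lemma cc_zero (θ T : ℝ) (hθ : 0 < θ) (hT : 1 < T) (n : ℕ) (hn : 2 ≤ n)
    (hh : (n : ℝ) ≤ T ^ (θ / 2)) : cc (bb θ (Real.log T) 0) n = 0 := by
  have hL : 0 < Real.log T := Real.log_pos hT
  unfold cc
  have h1 : ∀ h ∈ n.divisors, bb θ (Real.log T) 0 h = ((ArithmeticFunction.moebius h : ℤ) : ℂ) := by
    intro h hd
    have hd1 : h ≤ n := Nat.divisor_le hd
    have hpos : 0 < h := Nat.pos_of_mem_divisors hd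
    unfold bb mo
    have h2 : ph (Real.log h / (θ * Real.log T)) = 1 := by
      apply ph_one_of
      rw [div_le_iff₀ (by positivity)]
      have h3 : Real.log h ≤ Real.log (T ^ (θ / 2)) := by
        apply Real.log_le_log (by exact_mod_cast hpos)
        calc (h : ℝ) ≤ n := by exact_mod_cast hd1
          _ ≤ _ := hh
      rw [Real.log_rpow (by linarith)] at h3
      linarith
    rw [h2]
    simp
  rw [Finset.sum_congr rfl h1]
  have h4 : ∑ i ∈ n.divisors, ArithmeticFunction.moebius i = 0 := by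
    have := ArithmeticFunction.coe_mul_zeta_apply (f := ArithmeticFunction.moebius) (x := n)
    rw [ArithmeticFunction.moebius_mul_coe_zeta] at this
    rw [← this, ArithmeticFunction.one_apply_ne (by omega)]
  exact_mod_cast h4

lemma rpow_bound (L T : ℝ) (n : ℕ) (hT : 1 < T) (hL : L = Real.log T) (hL1 : 1 ≤ L) (hn : 1 ≤ n) :
    Real.exp (-(n / T)) ≤ 3 * (n : ℝ) ^ (-(1 / L)) := by
  have hn0 : (0 : ℝ) < n := by exact_mod_cast hn
  have hT0 : 0 < T := by linarith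
  have h1 : Real.log n ≤ L + (n / T) := by
    have h2 : Real.log (n / T) ≤ n / T := by
      have := Real.log_le_sub_one_of_pos (x := n / T) (by positivity)
      linarith
    rw [Real.log_div hn0.ne' hT0.ne', ← hL] at h2
    linarith
  have h3 : Real.log n / L ≤ 1 + n / T := by
    rw [div_le_iff₀ (by linarith)]
    have : 0 ≤ (n / T) := by positivity
    nlinarith
  have h4 : (n : ℝ) ^ (-(1 / L)) = Real.exp (-(Real.log n / L)) := by
    rw [Real.rpow_def_of_pos hn0]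
    congr 1
    ring
  rw [h4]
  have h5 : Real.exp (-(n / T)) ≤ Real.exp 1 * Real.exp (-(Real.log n / L)) := by
    rw [← Real.exp_add]
    apply Real.exp_le_exp.mpr
    linarith
  have h6 : Real.exp 1 ≤ 3 := by
    have := Real.exp_one_lt_d9
    linarith
  calc _ ≤ _ := h5
    _ ≤ 3 * Real.exp (-(Real.log n / L)) := by
      apply mul_le_mul_of_nonneg_right h6 (Real.exp_pos _).le

lemma first_sum (θ L T σ E W : ℝ) (β : ℂ) (hT : 1 < T) (hL : L = Real.log T) (hL1 : 1 ≤ L)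
    (hE : 0 ≤ E)
    (hcc : ∀ n : ℕ, 2 ≤ n → cc (bb θ L β) n ≠ 0 → (n : ℝ) ^ (-(2 * σ - 1)) ≤ E)
    (hS : ∀ N : ℕ, ∑ n ∈ Finset.Icc 1 N, (n : ℝ) ^ (-(1 + 1 / L)) * ‖cc (bb θ L β) n‖ ^ 2 ≤ W) :
    (∑' n : ℕ, if n ≤ 1 then 0 else
      ‖cc (bb θ L β) n‖ ^ 2 * (n : ℝ) ^ (-(2 * σ)) * Real.exp (-(n / T))) ≤ 3 * E * W := by
  set f : ℕ → ℝ := fun n => if n ≤ 1 then 0 else
      ‖cc (bb θ L β) n‖ ^ 2 * (n : ℝ) ^ (-(2 * σ)) * Real.exp (-(n / T)) with hf
  have hf0 : ∀ n, 0 ≤ f n := by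
    intro n
    simp only [hf]
    split_ifs
    · exact le_rfl
    · positivity
  have hterm : ∀ n : ℕ, 1 ≤ n → f n ≤ 3 * E * ((n : ℝ) ^ (-(1 + 1 / L)) * ‖cc (bb θ L β) n‖ ^ 2) := by
    intro n hn
    have hn0 : (0 : ℝ) < n := by exact_mod_cast hn
    simp only [hf]
    split_ifs with h1
    · positivity
    · by_cases hc : cc (bb θ L β) n = 0
      · rw [hc]; simp
      · have h2 := hcc n (by omega) hc
        have h3 := rpow_bound L T n hT hL hL1 hn
        have h4 : (n : ℝ) ^ (-(2 * σ)) = (n : ℝ) ^ (-1 : ℝ) * (n : ℝ) ^ (-(2 * σ - 1)) := by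
          rw [← Real.rpow_add hn0]; congr 1; ring
        have h5 : (n : ℝ) ^ (-(1 + 1 / L)) = (n : ℝ) ^ (-1 : ℝ) * (n : ℝ) ^ (-(1 / L)) := by
          rw [← Real.rpow_add hn0]; congr 1; ring
        rw [h4, h5]
        have h6 : (n : ℝ) ^ (-(2 * σ - 1)) * Real.exp (-(n / T)) ≤ E * (3 * (n : ℝ) ^ (-(1 / L))) := by
          apply mul_le_mul h2 h3 (Real.exp_pos _).le hE
        calc ‖cc (bb θ L β) n‖ ^ 2 * ((n : ℝ) ^ (-1 : ℝ) * (n : ℝ) ^ (-(2 * σ - 1))) * Real.exp (-(n / T))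
            = ‖cc (bb θ L β) n‖ ^ 2 * (n : ℝ) ^ (-1 : ℝ) *
              ((n : ℝ) ^ (-(2 * σ - 1)) * Real.exp (-(n / T))) := by ring
          _ ≤ ‖cc (bb θ L β) n‖ ^ 2 * (n : ℝ) ^ (-1 : ℝ) * (E * (3 * (n : ℝ) ^ (-(1 / L)))) := by
            apply mul_le_mul_of_nonneg_left h6 (by positivity)
          _ = _ := by ring
  apply Real.tsum_le_of_sum_range_le hf0
  intro N
  calc ∑ i ∈ Finset.range N, f i ≤ ∑ i ∈ insert 0 (Finset.Icc 1 N), f i := by
        apply Finset.sum_le_sum_of_subset_of_nonneg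
        · intro i hi
          rw [Finset.mem_range] at hi
          rw [Finset.mem_insert, Finset.mem_Icc]
          omega
        · intro i _ _; exact hf0 i
    _ = f 0 + ∑ i ∈ Finset.Icc 1 N, f i := by
        rw [Finset.sum_insert (by simp)]
    _ = ∑ i ∈ Finset.Icc 1 N, f i := by
        have : f 0 = 0 := by simp [hf]
        rw [this, zero_add]
    _ ≤ ∑ n ∈ Finset.Icc 1 N, 3 * E * ((n : ℝ) ^ (-(1 + 1 / L)) * ‖cc (bb θ L β) n‖ ^ 2) := by
        apply Finset.sum_le_sum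
        intro n hn
        exact hterm n (Finset.mem_Icc.mp hn).1
    _ = 3 * E * ∑ n ∈ Finset.Icc 1 N, ((n : ℝ) ^ (-(1 + 1 / L)) * ‖cc (bb θ L β) n‖ ^ 2) := by
        rw [Finset.mul_sum]
    _ ≤ 3 * E * W := by
        apply mul_le_mul_of_nonneg_left (hS N) (by positivity)

lemma second_sum (θ L V C2 : ℝ) (y : ℕ) (β : ℂ) (hL1 : 1 ≤ L) (_hV : 0 ≤ V)
    (hy : 1 ≤ y) (hyL : Real.log y ≤ L)
    (hr : ∀ k : ℕ, 1 ≤ k → ‖rr y (bb θ L β) k‖ ≤ V / (L * (Nat.totient k : ℝ)))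
    (hC2 : 0 < C2)
    (hP : ∑ k ∈ Finset.Icc 1 y, (k : ℝ) * (1 + Real.log k) / (Nat.totient k : ℝ) ^ 2 ≤
      C2 * (1 + Real.log y) ^ 2) :
    ∑ k ∈ Finset.Icc 1 y, (k : ℝ) * (1 + Real.log k) * ‖rr y (bb θ L β) k‖ ^ 2 ≤
      4 * C2 * V ^ 2 := by
  have hL0 : 0 < L := by linarith
  calc ∑ k ∈ Finset.Icc 1 y, (k : ℝ) * (1 + Real.log k) * ‖rr y (bb θ L β) k‖ ^ 2
      ≤ ∑ k ∈ Finset.Icc 1 y, (V ^ 2 / L ^ 2) *
        ((k : ℝ) * (1 + Real.log k) / (Nat.totient k : ℝ) ^ 2) := by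
        apply Finset.sum_le_sum
        intro k hk
        have hk1 := (Finset.mem_Icc.mp hk).1
        have h1 := hr k hk1
        have h2 : ‖rr y (bb θ L β) k‖ ^ 2 ≤ (V / (L * (Nat.totient k : ℝ))) ^ 2 := by
          apply pow_le_pow_left₀ (norm_nonneg _) h1
        have h3 : 0 ≤ Real.log k := Real.log_nonneg (by exact_mod_cast hk1)
        calc (k : ℝ) * (1 + Real.log k) * ‖rr y (bb θ L β) k‖ ^ 2
            ≤ (k : ℝ) * (1 + Real.log k) * (V / (L * (Nat.totient k : ℝ))) ^ 2 := by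
              apply mul_le_mul_of_nonneg_left h2 (by positivity)
          _ = _ := by
              rw [div_pow, mul_pow]
              have : (Nat.totient k : ℝ) ≠ 0 := by
                have := Nat.totient_pos.mpr hk1
                positivity
              field_simp
    _ = (V ^ 2 / L ^ 2) * ∑ k ∈ Finset.Icc 1 y,
        ((k : ℝ) * (1 + Real.log k) / (Nat.totient k : ℝ) ^ 2) := by
        rw [Finset.mul_sum]
    _ ≤ (V ^ 2 / L ^ 2) * (C2 * (1 + Real.log y) ^ 2) := by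
        apply mul_le_mul_of_nonneg_left hP (by positivity)
    _ ≤ (V ^ 2 / L ^ 2) * (C2 * (2 * L) ^ 2) := by
        apply mul_le_mul_of_nonneg_left _ (by positivity)
        apply mul_le_mul_of_nonneg_left _ hC2.le
        apply pow_le_pow_left₀
        · have : 0 ≤ Real.log y := Real.log_nonneg (by exact_mod_cast hy)
          linarith
        · linarith
    _ = 4 * C2 * V ^ 2 := by
        field_simp
        ring

lemma third_sum (θ L : ℝ) (y : ℕ) (β : ℂ) (hβ : ‖β‖ ≤ 1) :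
    ∑ h ∈ Finset.Icc 1 y, ‖bb θ L β h‖ ^ 2 ≤ (y : ℝ) ^ 3 := by
  calc ∑ h ∈ Finset.Icc 1 y, ‖bb θ L β h‖ ^ 2 ≤ ∑ h ∈ Finset.Icc 1 y, (y : ℝ) ^ 2 := by
        apply Finset.sum_le_sum
        intro h hh
        have h1 := norm_bb_le θ L β hβ h (Finset.mem_Icc.mp hh).1
        have h2 : (h : ℝ) ≤ y := by exact_mod_cast (Finset.mem_Icc.mp hh).2
        apply pow_le_pow_left₀ (norm_nonneg _) (h1.trans h2)
    _ = (y : ℝ) ^ 3 := by
        rw [Finset.sum_const, Nat.card_Icc, nsmul_eq_mul]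
        simp only [add_tsub_cancel_right]
        ring

lemma MM_shift (θ L : ℝ) (β s : ℂ) (y : ℕ) : MM y (bb θ L β) s = MM y (bb θ L 0) (s + β) := by
  unfold MM
  apply Finset.sum_congr rfl
  intro h hh
  have hpos : (h : ℂ) ≠ 0 := by
    have := (Finset.mem_Icc.mp hh).1
    exact_mod_cast (by omega : h ≠ 0)
  unfold bb
  rw [neg_zero, Complex.cpow_zero, mul_one, mul_assoc, ← Complex.cpow_add _ _ hpos]
  congr 2
  ring

lemma yy_facts (θ T : ℝ) (hθ : 0 < θ) (hθ' : θ ≤ 1 / 200) (hT : (2 : ℝ) ^ 200 ≤ T) :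
    1 ≤ yy θ T ∧ ((yy θ T : ℕ) : ℝ) ^ 100 ≤ T ∧ T ^ θ ≤ yy θ T := by
  have hT1 : (1 : ℝ) ≤ T := le_trans (by norm_num) hT
  have hT0 : (0 : ℝ) < T := by linarith
  have h1 : 1 ≤ T ^ θ := Real.one_le_rpow hT1 hθ.le
  have h2 : T ^ θ ≤ yy θ T := Nat.le_ceil _
  have h3 : 1 ≤ yy θ T := by
    have : (1 : ℝ) ≤ yy θ T := h1.trans h2
    exact_mod_cast this
  refine ⟨h3, ?_, h2⟩
  have h4 : ((yy θ T : ℕ) : ℝ) ≤ 2 * T ^ θ := by
    have := (Nat.ceil_lt_add_one (a := T ^ θ) (by positivity)).le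
    unfold yy
    linarith
  have h5 : T ^ θ ≤ T ^ (1 / 200 : ℝ) := Real.rpow_le_rpow_of_exponent_le hT1 hθ'
  have h6 : ((yy θ T : ℕ) : ℝ) ^ 100 ≤ (2 * T ^ (1 / 200 : ℝ)) ^ 100 := by
    apply pow_le_pow_left₀ (by positivity)
    linarith
  have h7 : (T ^ (1 / 200 : ℝ)) ^ 200 = T := by
    rw [← Real.rpow_natCast, ← Real.rpow_mul hT0.le]
    norm_num
  have h8 : (2 : ℝ) ≤ T ^ (1 / 200 : ℝ) := by
    by_contra hlt
    push Not at hlt
    have : (T ^ (1 / 200 : ℝ)) ^ 200 < 2 ^ 200 :=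
      pow_lt_pow_left₀ hlt (by positivity) (by norm_num)
    rw [h7] at this
    linarith
  calc ((yy θ T : ℕ) : ℝ) ^ 100 ≤ (2 * T ^ (1 / 200 : ℝ)) ^ 100 := h6
    _ ≤ (T ^ (1 / 200 : ℝ) * T ^ (1 / 200 : ℝ)) ^ 100 := by
        apply pow_le_pow_left₀ (by positivity)
        apply mul_le_mul_of_nonneg_right h8 (by positivity)
    _ = (T ^ (1 / 200 : ℝ)) ^ 200 := by ring
    _ = T := h7

/-- The common bound. -/
lemma core (h1 : SAN) (h2 : SMo) (h3 : SPhi) (θ : ℝ) (hθ : 0 < θ) (hθ' : θ ≤ 1 / 200) :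
    ∃ C T0 : ℝ, 0 < C ∧ (2 : ℝ) ^ 200 ≤ T0 ∧ ∀ (T σ E : ℝ) (β : ℂ), T0 ≤ T → 1 / 2 ≤ σ → σ ≤ 9 / 10 →
      ‖β‖ ≤ 1 → Real.exp (-(θ * (σ - 1 / 2) * Real.log T)) ≤ E →
      (∀ n : ℕ, 2 ≤ n → cc (bb θ (Real.log T) β) n ≠ 0 → (n : ℝ) ^ (-(2 * σ - 1)) ≤ E) →
      ∫ t in (T / 4)..(4 * T), ‖riemannZeta ((σ : ℂ) + t * I) *
        MM (yy θ T) (bb θ (Real.log T) β) ((σ : ℂ) + t * I) - 1‖ ^ 2 ≤
        C * T * E * ((1 + Real.log T * ‖β‖) ^ 20 * Real.exp (2 * θ * Real.log T * ‖β‖)) := by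
  obtain ⟨C0, T00, hC0, hT00, h1⟩ := h1
  obtain ⟨C1, hC1, h2⟩ := h2 θ hθ (by linarith)
  obtain ⟨C2, hC2, h3⟩ := h3
  refine ⟨C0 * (3 * C1 + 4 * C2 * C1 ^ 2 + 1), max T00 (2 ^ 200), by positivity, le_max_right _ _, ?_⟩
  intro T σ E β hT hσ hσ' hβ hE hcc
  have hTa : T00 ≤ T := (le_max_left _ _).trans hT
  have hTb : (2 : ℝ) ^ 200 ≤ T := (le_max_right _ _).trans hT
  have hT1 : 1 < T := lt_of_lt_of_le (by norm_num) hTb
  have hT0 : 0 < T := by linarith
  obtain ⟨hy1, hy100, hyθ⟩ := yy_facts θ T hθ hθ' hTb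
  set y := yy θ T with hy
  set L := Real.log T with hL
  have hL1 : 1 ≤ L := by
    rw [hL, Real.le_log_iff_exp_le hT0]
    have := Real.exp_one_lt_d9
    have h22 : (2.7182818286 : ℝ) ≤ 2 ^ 200 := by norm_num
    linarith
  have hE0 : 0 < E := lt_of_lt_of_le (Real.exp_pos _) hE
  obtain ⟨h2a, h2b⟩ := h2 L β hL1
  set W := (1 + L * ‖β‖) ^ 20 * Real.exp (2 * θ * L * ‖β‖) with hW
  have hW1 : 1 ≤ W := by
    rw [hW]
    have ha : (1 : ℝ) ≤ (1 + L * ‖β‖) ^ 20 := by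
      apply one_le_pow₀
      have : 0 ≤ L * ‖β‖ := by positivity
      linarith
    have hb : 1 ≤ Real.exp (2 * θ * L * ‖β‖) := by
      apply Real.one_le_exp
      positivity
    exact one_le_mul_of_one_le_of_one_le ha hb
  have hb1 : bb θ L β 1 = 1 := bb_one θ L β
  have hSAN := h1 T σ y (bb θ L β) hTa hy1 hy100 hσ hσ' (fun h hh => bb_zero θ T β hθ hT1 h hh)
  rw [hb1] at hSAN
  refine hSAN.trans ?_
  -- first sum
  have hF := first_sum θ L T σ E (C1 * W) β hT1 hL hL1 hE0.le hcc (by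
    intro N
    have := h2a N
    rw [hW]
    calc _ ≤ _ := this
      _ = _ := by ring)
  -- second sum
  have hylog : Real.log y ≤ L := by
    rw [hL]
    apply Real.log_le_log (by exact_mod_cast hy1)
    calc ((y : ℕ) : ℝ) ≤ (y : ℝ) ^ 100 := by
          apply le_self_pow₀
          · exact_mod_cast hy1
          · norm_num
      _ ≤ T := hy100
  have hexp : Real.exp (θ * L) ≤ y := by
    have : Real.exp (θ * L) = T ^ θ := by
      rw [Real.rpow_def_of_pos hT0, mul_comm]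
    rw [this]; exact hyθ
  have hS := second_sum θ L (C1 * (1 + L * ‖β‖) ^ 10 * Real.exp (θ * L * ‖β‖)) C2 y β hL1 (by positivity)
    hy1 hylog (fun k hk => h2b y k hexp hk) hC2 (h3 y hy1)
  have hV2 : (C1 * (1 + L * ‖β‖) ^ 10 * Real.exp (θ * L * ‖β‖)) ^ 2 = C1 ^ 2 * W := by
    rw [hW, mul_pow, mul_pow, ← pow_mul, ← Real.exp_nat_mul]
    have : ((2 : ℕ) : ℝ) * (θ * L * ‖β‖) = 2 * θ * L * ‖β‖ := by push_cast; ring
    rw [this]
    norm_num
    ring
  rw [hV2] at hS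
  have hTpow : T ^ (1 - 2 * σ) ≤ E := by
    refine le_trans ?_ hE
    rw [Real.rpow_def_of_pos hT0, ← hL]
    apply Real.exp_le_exp.mpr
    have : 0 ≤ L * (σ - 1 / 2) := mul_nonneg (by linarith) (by linarith)
    nlinarith
  -- third sum
  have hTh := third_sum θ L y β hβ
  have hy3 : T ^ (-(1 / 2) : ℝ) * (y : ℝ) ^ 3 ≤ E := by
    refine le_trans ?_ hE
    have hy3' : (y : ℝ) ^ 3 ≤ T ^ (3 / 100 : ℝ) := by
      have hya : (y : ℝ) ≤ T ^ (1 / 100 : ℝ) := by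
        have h9 : ((y : ℝ) ^ 100) ^ (1 / 100 : ℝ) ≤ T ^ (1 / 100 : ℝ) :=
          Real.rpow_le_rpow (by positivity) hy100 (by norm_num)
        rw [← Real.rpow_natCast (y : ℝ) 100, ← Real.rpow_mul (by positivity)] at h9
        norm_num at h9
        convert h9 using 2
      calc (y : ℝ) ^ 3 ≤ (T ^ (1 / 100 : ℝ)) ^ 3 := by
            apply pow_le_pow_left₀ (by positivity) hya
        _ = T ^ (3 / 100 : ℝ) := by
            rw [← Real.rpow_natCast, ← Real.rpow_mul hT0.le]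
            norm_num
    calc T ^ (-(1 / 2) : ℝ) * (y : ℝ) ^ 3 ≤ T ^ (-(1 / 2) : ℝ) * T ^ (3 / 100 : ℝ) := by
          apply mul_le_mul_of_nonneg_left hy3' (by positivity)
      _ = T ^ (-(47 / 100) : ℝ) := by
          rw [← Real.rpow_add hT0]; norm_num
      _ = Real.exp (L * (-(47 / 100))) := by
          rw [Real.rpow_def_of_pos hT0]
      _ ≤ _ := by
          apply Real.exp_le_exp.mpr
          have : θ * (σ - 1 / 2) ≤ 47 / 100 := by
            have : θ * (σ - 1 / 2) ≤ (1 / 200) * (4 / 10) := by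
              apply mul_le_mul hθ' (by linarith) (by linarith) (by norm_num)
            linarith
          have h47 := mul_le_mul_of_nonneg_right this (by linarith : (0 : ℝ) ≤ L)
          linarith
  have hthird : T ^ (-(1 / 2) : ℝ) * ∑ h ∈ Finset.Icc 1 y, ‖bb θ L β h‖ ^ 2 ≤ E * W := by
    calc _ ≤ T ^ (-(1 / 2) : ℝ) * (y : ℝ) ^ 3 := by
          apply mul_le_mul_of_nonneg_left hTh (by positivity)
      _ ≤ E := hy3
      _ = E * 1 := by ring
      _ ≤ E * W := by apply mul_le_mul_of_nonneg_left hW1 hE0.le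
  have hsecond : T ^ (1 - 2 * σ) *
      (∑ k ∈ Finset.Icc 1 y, (k : ℝ) * (1 + Real.log k) * ‖rr y (bb θ L β) k‖ ^ 2) ≤
      E * (4 * C2 * (C1 ^ 2 * W)) := by
    apply mul_le_mul hTpow hS _ hE0.le
    apply Finset.sum_nonneg
    intro k hk
    have : 0 ≤ Real.log k := Real.log_nonneg (by exact_mod_cast (Finset.mem_Icc.mp hk).1)
    positivity
  calc _ ≤ C0 * T * (3 * E * (C1 * W) + E * (4 * C2 * (C1 ^ 2 * W)) + E * W) := by
        apply mul_le_mul_of_nonneg_left _ (by positivity)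
        exact add_le_add (add_le_add hF hsecond) hthird
    _ = C0 * (3 * C1 + 4 * C2 * C1 ^ 2 + 1) * T * E * W := by ring

theorem smv1 (h1 : SAN) (h2 : SMo) (h3 : SPhi) : SMV1 := by
  intro θ hθ hθ'
  obtain ⟨C, T0, hC, hT0, h⟩ := core h1 h2 h3 θ hθ hθ'
  refine ⟨C, T0, hC, le_trans (by norm_num) hT0, ?_⟩
  intro T σ hT hσ hσ'
  have hT1 : 1 < T := lt_of_lt_of_le (by norm_num) (hT0.trans hT)
  have hTp : 0 < T := by linarith
  have hL : 0 < Real.log T := Real.log_pos hT1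
  have := h T σ (Real.exp (-(θ * (σ - 1 / 2) * Real.log T))) 0 hT hσ hσ' (by simp) le_rfl (by
    intro n hn hc
    have hlt : T ^ (θ / 2) < n := by
      by_contra hle
      push Not at hle
      exact hc (cc_zero θ T hθ hT1 n hn hle)
    have hn0 : (0 : ℝ) < n := by positivity
    calc (n : ℝ) ^ (-(2 * σ - 1)) ≤ (T ^ (θ / 2)) ^ (-(2 * σ - 1)) := by
          apply Real.rpow_le_rpow_of_nonpos (by positivity) hlt.le
          linarith
      _ = Real.exp (-(θ * (σ - 1 / 2) * Real.log T)) := by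
          rw [← Real.rpow_mul hTp.le, Real.rpow_def_of_pos hTp]
          congr 1
          ring)
  unfold mT
  refine this.trans (le_of_eq ?_)
  simp

lemma zeta_cont (σ : ℝ) (T : ℝ) (hT : 0 < T) :
    ContinuousOn (fun t : ℝ => riemannZeta ((σ : ℂ) + t * I)) (Set.uIcc (T / 4) (4 * T)) := by
  intro t ht
  rw [Set.uIcc_of_le (by linarith)] at ht
  have hne : (σ : ℂ) + t * I ≠ 1 := by
    intro h
    have := congrArg Complex.im h
    simp at this
    linarith [ht.1]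
  have h1 : ContinuousAt riemannZeta ((σ : ℂ) + t * I) := (differentiableAt_riemannZeta hne).continuousAt
  have h2 : ContinuousAt (fun t : ℝ => (σ : ℂ) + t * I) t := by fun_prop
  have h3 : ContinuousAt (fun t : ℝ => riemannZeta ((σ : ℂ) + t * I)) t :=
    ContinuousAt.comp (f := fun t : ℝ => (σ : ℂ) + t * I) h1 h2
  exact h3.continuousWithinAt

lemma MM_cont (σ : ℝ) (y : ℕ) (b : ℕ → ℂ) :
    Continuous (fun t : ℝ => MM y b ((σ : ℂ) + t * I)) := by
  unfold MM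
  apply continuous_finsetSum
  intro h hh
  have hpos : (h : ℂ) ≠ 0 := by
    have := (Finset.mem_Icc.mp hh).1
    exact_mod_cast (by omega : h ≠ 0)
  apply Continuous.mul continuous_const
  apply Continuous.const_cpow (by fun_prop)
  left; exact hpos

theorem smv2 (h1 : SAN) (h2 : SMo) (h3 : SPhi) : SMV2 := by
  intro θ hθ hθ'
  obtain ⟨C, T0, hC, hT0, h⟩ := core h1 h2 h3 θ hθ hθ'
  refine ⟨2 * C + 8, T0, by positivity, le_trans (by norm_num) hT0, ?_⟩
  intro T σ β hT hσ hσ' hβ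
  have hT1 : 1 < T := lt_of_lt_of_le (by norm_num) (hT0.trans hT)
  have hTp : 0 < T := by linarith
  have hL : 0 < Real.log T := Real.log_pos hT1
  have hcore := h T σ 1 β hT hσ hσ' hβ (by
    apply Real.exp_le_one_iff.mpr
    have : 0 ≤ θ * (σ - 1 / 2) * Real.log T := by
      apply mul_nonneg (mul_nonneg hθ.le (by linarith)) hL.le
    linarith) (by
    intro n hn hc
    have hn1 : (1 : ℝ) ≤ n := by exact_mod_cast (by omega : 1 ≤ n)
    calc (n : ℝ) ^ (-(2 * σ - 1)) ≤ (n : ℝ) ^ (0 : ℝ) := by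
          apply Real.rpow_le_rpow_of_exponent_le hn1
          linarith
      _ = 1 := Real.rpow_zero _)
  set W := (1 + Real.log T * ‖β‖) ^ 20 * Real.exp (2 * θ * Real.log T * ‖β‖) with hW
  have hW1 : 1 ≤ W := by
    rw [hW]
    have ha : (1 : ℝ) ≤ (1 + Real.log T * ‖β‖) ^ 20 := by
      apply one_le_pow₀
      have : 0 ≤ Real.log T * ‖β‖ := by positivity
      linarith
    have hb : 1 ≤ Real.exp (2 * θ * Real.log T * ‖β‖) := by
      apply Real.one_le_exp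
      positivity
    exact one_le_mul_of_one_le_of_one_le ha hb
  set G : ℝ → ℂ := fun t => riemannZeta ((σ : ℂ) + t * I) *
        MM (yy θ T) (bb θ (Real.log T) β) ((σ : ℂ) + t * I) with hG
  have hGc : ContinuousOn G (Set.uIcc (T / 4) (4 * T)) :=
    (zeta_cont σ T hTp).mul (MM_cont σ _ _).continuousOn
  have hI1 : IntervalIntegrable (fun t => ‖G t‖ ^ 2) volume (T / 4) (4 * T) :=
    (hGc.norm.pow 2).intervalIntegrable
  have hI2 : IntervalIntegrable (fun t => ‖G t - 1‖ ^ 2) volume (T / 4) (4 * T) :=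
    ((hGc.sub continuousOn_const).norm.pow 2).intervalIntegrable
  have hpt : ∀ t ∈ Set.Icc (T / 4) (4 * T), ‖G t‖ ^ 2 ≤ 2 * ‖G t - 1‖ ^ 2 + 2 := by
    intro t _
    have h5 : ‖G t‖ ≤ ‖G t - 1‖ + 1 := by
      calc ‖G t‖ = ‖(G t - 1) + 1‖ := by ring_nf
        _ ≤ ‖G t - 1‖ + ‖(1 : ℂ)‖ := norm_add_le _ _
        _ = _ := by simp
    have h6 := norm_nonneg (G t)
    nlinarith [sq_nonneg (‖G t - 1‖ - 1)]
  have hmono : ∫ t in (T / 4)..(4 * T), ‖G t‖ ^ 2 ≤
      ∫ t in (T / 4)..(4 * T), (2 * ‖G t - 1‖ ^ 2 + 2) := by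
    apply intervalIntegral.integral_mono_on (by linarith) hI1 _ hpt
    exact (hI2.const_mul 2).add intervalIntegrable_const
  have heq : ∫ t in (T / 4)..(4 * T), (2 * ‖G t - 1‖ ^ 2 + 2) =
      2 * (∫ t in (T / 4)..(4 * T), ‖G t - 1‖ ^ 2) + (4 * T - T / 4) * 2 := by
    rw [intervalIntegral.integral_add (hI2.const_mul 2) intervalIntegrable_const,
      intervalIntegral.integral_const_mul, intervalIntegral.integral_const]
    simp
  have hfun : ∀ t : ℝ, ‖riemannZeta ((σ : ℂ) + t * I) * mT θ T ((σ : ℂ) + t * I + β)‖ ^ 2 = ‖G t‖ ^ 2 := by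
    intro t
    simp only [hG]
    unfold mT
    rw [MM_shift θ (Real.log T) β ((σ : ℂ) + t * I)]
  calc ∫ t in (T / 4)..(4 * T), ‖riemannZeta ((σ : ℂ) + t * I) * mT θ T ((σ : ℂ) + t * I + β)‖ ^ 2
      = ∫ t in (T / 4)..(4 * T), ‖G t‖ ^ 2 := by
        apply intervalIntegral.integral_congr
        intro t _
        exact hfun t
    _ ≤ 2 * (∫ t in (T / 4)..(4 * T), ‖G t - 1‖ ^ 2) + (4 * T - T / 4) * 2 := by
        rw [← heq]; exact hmono
    _ ≤ 2 * (C * T * 1 * W) + 8 * T := by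
        have : ∫ t in (T / 4)..(4 * T), ‖G t - 1‖ ^ 2 ≤ C * T * 1 * W := hcore
        linarith
    _ ≤ (2 * C + 8) * T * W := by nlinarith
    _ = _ := by rw [hW]; ring

end Pool.Agent.W131.SMV

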